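import Pool.Agent.MP_e30343_lc.SO.Base

/-! Boolean valued topological groups of sequential order 3, seen from outside; the abstract data
for a group of order 2. -/

open Filter Set

namespace Pool.Agent.MP_e30343_lc.SO

universe u

variable {X : Type} [MeasurableSpace X]

/-- `q` tends to `1` on `R` -/
def NlR (ν : Filter X) {G O : Type u} (mem : G → O → X → Prop) (R : X → Prop)
    (q : X → ℕ → G) : Prop :=
  ∀ U, ∀ᶠ x in ν, R x → ∀ᶠ n in atTop, mem (q x n) U x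

/-- `G` = names of elements (a true group, e.g. the free group on the names), `O` = names of open
neighbourhoods of `1`, `nul g` = value of `g = 1`, `mem g U` = value of `g ∈ U`. -/
structure BG (ν : Filter X) where
  G : Type u
  [grp : Group G]
  O : Type u
  nul : G → X → Prop
  mem : G → O → X → Prop
  nul_meas : ∀ g, Measurable (nul g)
  mem_meas : ∀ g U, Measurable (mem g U)
  U0 : O
  nul_one : ∀ᶠ x in ν, nul 1 x
  nul_div : ∀ g h, ∀ᶠ x in ν, nul g x → nul h x → nul (g * h⁻¹) x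
  nul_conj : ∀ g h, ∀ᶠ x in ν, nul g x → nul (h * g * h⁻¹) x
  mem_nul : ∀ g h U, ∀ᶠ x in ν, nul (g⁻¹ * h) x → mem g U x → mem h U x
  mem_one : ∀ U, ∀ᶠ x in ν, mem 1 U x
  inter : ∀ U U', ∃ V, ∀ g, ∀ᶠ x in ν, mem g V x → mem g U x ∧ mem g U' x
  tri : ∀ U, ∃ V, ∀ g h k, ∀ᶠ x in ν, mem g V x → mem h V x → mem k V x → mem (g * h⁻¹ * k) U x
  conj : ∀ U g, ∃ V, ∀ h, ∀ᶠ x in ν, mem h V x → mem (g * h * g⁻¹) U x
  opn : ∀ U g, ∃ V, ∀ h, ∀ᶠ x in ν, mem g U x → mem h V x → mem (g * h) U x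
  haus : ∀ g, ∃ U, ∀ᶠ x in ν, mem g U x → nul g x
  mix : ∀ (f : X → ℕ) (g : ℕ → G), Measurable f → ∃ h, ∀ᶠ x in ν, nul ((g (f x))⁻¹ * h) x
  o3a : ∀ (g : ℕ → G) (D : X → ℕ → Prop) (R : X → Prop), (∀ n, Measurable fun x => D x n) →
    Measurable R → (∀ U, ∀ᶠ x in ν, R x → ∃ n, D x n ∧ mem (g n) U x) →
    ∃ (a : X → ℕ → ℕ → ℕ → ℕ) (b : ℕ → ℕ → G) (c : ℕ → G),
      (∀ i j k, Measurable fun x => a x i j k) ∧ (∀ᶠ x in ν, R x → ∀ i j k, D x (a x i j k)) ∧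
      NlR ν mem R (fun _ i => c i) ∧ (∀ i, NlR ν mem R fun _ j => (c i)⁻¹ * b i j) ∧
      ∀ i j, NlR ν mem R fun x k => (b i j)⁻¹ * g (a x i j k)
  a0 : ℕ × ℕ × ℕ → G
  b0 : ℕ → ℕ → G
  c0 : ℕ → G
  c0_nl : NlR ν mem (fun _ => True) fun _ i => c0 i
  b0_nl : ∀ i, NlR ν mem (fun _ => True) fun _ j => (c0 i)⁻¹ * b0 i j
  a0_nl : ∀ i j, NlR ν mem (fun _ => True) fun _ k => (b0 i j)⁻¹ * a0 (i, j, k)
  no2 : ∀ (R : X → Prop) (y : X → ℕ → ℕ → ℕ × ℕ × ℕ) (g : ℕ → G), Measurable R →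
    (∀ p l, Measurable fun x => y x p l) → NlR ν mem R (fun _ p => g p) →
    (∀ p, NlR ν mem R fun x l => (g p)⁻¹ * a0 (y x p l)) → ∀ᶠ x in ν, ¬ R x

attribute [instance] BG.grp

variable {Ω : Type} [MeasurableSpace Ω]

/-- a family of characters of `V` that gives a group of sequential order 2 -/
structure Chr (l : Filter Ω) (I : Type) (φ : I → Ω → V → ZMod 2) : Prop where
  meas : ∀ i v c, Measurable fun x => φ i x v = c
  add : ∀ i x v v', φ i x (v + v') = φ i x v + φ i x v'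
  star : ∀ XX : Ω → V → Prop, (∀ v, Measurable fun x => XX x v) →
    ∃ (q : Ω → ℕ → V) (I1 : Set I), (∀ m v, Measurable fun x => q x m = v) ∧ I1.Countable ∧
      (∀ᶠ x in l, (∀ k, ∃ v ∈ W k, XX x v) → ∀ m, XX x (q x m) ∧ q x m ∈ W m) ∧
      ∀ i, i ∉ I1 → ∀ᶠ x in l, (∀ k, ∃ v ∈ W k, XX x v) → ∀ᶠ m in atTop, φ i x (q x m) = 0
  tall : ∀ Zs : Ω → ℕ → Prop, (∀ z, Measurable fun x => Zs x z) →
    ∃ I1 : Set I, I1.Countable ∧ ∀ᶠ x in l, (∃ᶠ z in atTop, Zs x z) →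
      ∃ i ∈ I1, ∃ᶠ z in atTop, Zs x z ∧ φ i x (Finsupp.single z 1) ≠ 0
  prop : ∀ F : Finset I, ∀ᶠ x in l, ∃ᶠ z in atTop, ∀ i ∈ F, φ i x (Finsupp.single z 1) = 0

end Pool.Agent.MP_e30343_lc.SO
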