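import Mathlib

/-! Letters, vectors, objects; functions of a set of coordinates. -/

open Filter Set

namespace Pool.Agent.MP_e30343_lc.SO

/-- finitely supported vectors over the field with two elements -/
abbrev V : Type := ℕ →₀ ZMod 2

/-- vectors vanishing below `k` -/
def W (k : ℕ) : Submodule (ZMod 2) V where
  carrier := {v | ∀ j < k, v j = 0}
  add_mem' := fun ha hb j hj => by simp [ha j hj, hb j hj]
  zero_mem' := fun _ _ => rfl
  smul_mem' := fun c _ ha j hj => by simp [ha j hj]

theorem mem_W {k : ℕ} {v : V} : v ∈ W k ↔ ∀ j < k, v j = 0 := Iff.rfl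

/-- letters -/
@[ext] structure L : Type where
  t : V
  u : Finset ℕ
  e : V

/-- letters as triples -/
def L.eqv : L ≃ V × Finset ℕ × V where
  toFun a := (a.t, a.u, a.e)
  invFun p := ⟨p.1, p.2.1, p.2.2⟩
  left_inv _ := rfl
  right_inv _ := rfl

instance : Countable L := L.eqv.injective.countable
instance : Infinite L := L.eqv.infinite_iff.2 inferInstance
instance : MeasurableSpace L := ⊤
instance : DiscreteMeasurableSpace L := ⟨fun _ => trivial⟩
noncomputable instance : DecidableEq L := Classical.decEq _

/-- the zero letter -/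
def L.z : L := ⟨0, ∅, 0⟩

instance : Inhabited L := ⟨L.z⟩

instance : Countable (FreeGroup (ℕ × ℕ)) := FreeGroup.toWord_injective.countable

instance : Infinite (FreeGroup (ℕ × ℕ)) := Infinite.of_injective _ FreeGroup.of_injective

/-- letters code the elements of the free group -/
noncomputable def enc : L ≃ FreeGroup (ℕ × ℕ) := (nonempty_equiv_of_countable).some

noncomputable instance : Group L := enc.group

/-- the coding as a group isomorphism -/
noncomputable def encM : L ≃* FreeGroup (ℕ × ℕ) := enc.mulEquiv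

/-- free generators: column `c`, index `n` -/
noncomputable def gen (c n : ℕ) : L := encM.symm (FreeGroup.of (c, n))

/-- evaluation of letters (words) in a group -/
noncomputable def evL {G : Type*} [Group G] (d : ℕ → ℕ → G) : L →* G :=
  (FreeGroup.lift fun p : ℕ × ℕ => d p.1 p.2).comp encM.toMonoidHom

theorem evL_gen {G : Type*} [Group G] (d : ℕ → ℕ → G) (c n : ℕ) : evL d (gen c n) = d c n := by
  simp [evL, gen]

theorem gen_inj (c : ℕ) : Function.Injective (gen c) := fun a b h => by
  simpa using FreeGroup.of_injective (encM.symm.injective h)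

/-- an injective numbering of the letters -/
noncomputable def nb : L → ℕ := (exists_injective_nat L).choose

theorem nb_inj : Function.Injective nb := (exists_injective_nat L).choose_spec

/-- a finite set of letters avoiding the letters numbered below `k` -/
def farS (k : ℕ) (s : Finset L) : Prop := ∀ e ∈ s, k ≤ nb e

/-- objects -/
abbrev Obj : Type := V × Finset ℕ

/-- the zero object -/
def o0 : Obj := (0, ∅)

/-- the object of a letter -/
def L.ob (a : L) : Obj := (a.t, a.u)

/-- `k`-far objects -/
def far (k : ℕ) (o : Obj) : Prop := o.1 ∈ W k ∧ ∀ z ∈ o.2, k ≤ z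

/-- truncation below `k` -/
noncomputable def tr (k : ℕ) (o : Obj) : Obj := (o.1.filter (· < k), o.2.filter (· < k))

noncomputable def psi (y : ℕ → L) (z : ℕ) : V :=
  ∑ i ∈ (Finset.range (z + 1)).filter (fun i => z ∈ (y i).u), (y i).e

noncomputable def nu (y : ℕ → L) (z : ℕ) : V := ∑ i ∈ Finset.range (z + 1), (y i).t z • (y i).e

noncomputable def eta (y : ℕ → L) (t : V) : V := t.sum fun z c => c • psi y z

/-- `(y, D)`-good objects -/
def good (y : ℕ → L) (D : ℕ) (o : Obj) : Prop := eta y o.1 ∈ W D ∧ ∀ z ∈ o.2, nu y z ∈ W D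

/-- forget the levels below `n` -/
def cutHi (n : ℕ) (y : ℕ → L) (i : ℕ) : L := if i < n then L.z else y i

/-- a finite word as a sequence -/
def ofL (τ : List L) (i : ℕ) : L := τ.getD i L.z

/-- initial segment of a sequence -/
def pre (y : ℕ → L) (i : ℕ) : List L := List.ofFn fun j : Fin i => y j

/-- a bound for the objects of a word -/
noncomputable def bnd (τ : List L) : ℕ :=
  (τ.map fun a => max (a.t.support.sup (· + 1)) (a.u.sup (· + 1))).foldr max 0

/-- linear automorphisms of `V` -/
abbrev Aut : Type := V ≃ₗ[ZMod 2] V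

/-- twisting a letter -/
noncomputable def twL (g : Aut) (a : L) : L := ⟨a.t, a.u, g a.e⟩

/-- `g` preserves `W D` for all `D ≥ D0` -/
def Pres (g : Aut) (D0 : ℕ) : Prop := ∀ D, D0 ≤ D → ∀ v, g v ∈ W D ↔ v ∈ W D

/-- any `n` members of `GG` have a common point -/
def Linked {Γ : Type} (n : ℕ) (GG : Set (Set Γ)) : Prop :=
  ∀ (κ : Type) [Fintype κ], Fintype.card κ ≤ n → ∀ G : κ → Set Γ, (∀ i, G i ∈ GG) → ∃ g, ∀ i, g ∈ G i

/-- `P` is measurable and depends only on the coordinates in `B` -/
def MD {ι : Type} (B : Set ι) (P : (ι → ℕ → L) → Prop) : Prop :=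
  Measurable P ∧ ∀ x y : ι → ℕ → L, (∀ n ∈ B, x n = y n) → (P x ↔ P y)

/-- essential suprema exist (countable chain condition) -/
class CCC {Ω : Type} [MeasurableSpace Ω] (l : Filter Ω) : Prop where
  sup : ∀ A : Set (Ω → Prop), (∀ P ∈ A, Measurable P) →
    ∃ C ⊆ A, C.Countable ∧ ∀ P ∈ A, ∀ᶠ x in l, P x → ∃ Q ∈ C, Q x

end Pool.Agent.MP_e30343_lc.SO
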