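import Pool.Agent.MP_e30343_lc.SO.Base

/-! Closure properties of `MD`. -/

open Filter Set

namespace Pool.Agent.MP_e30343_lc.SO

namespace MD

variable {ι : Type} {B B' : Set ι} {P Q : (ι → ℕ → L) → Prop}

theorem mono (h : MD B P) (e : B ⊆ B') : MD B' P :=
  ⟨h.1, fun x y hxy => h.2 x y fun n hn => hxy n (e hn)⟩

theorem const (p : Prop) : MD B fun _ => p := ⟨measurable_const, fun _ _ _ => Iff.rfl⟩

theorem not (h : MD B P) : MD B fun x => ¬ P x :=
  ⟨h.1.not, fun x y e => not_congr (h.2 x y e)⟩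

theorem and (h : MD B P) (h' : MD B Q) : MD B fun x => P x ∧ Q x :=
  ⟨h.1.and h'.1, fun x y e => and_congr (h.2 x y e) (h'.2 x y e)⟩

theorem or (h : MD B P) (h' : MD B Q) : MD B fun x => P x ∨ Q x :=
  ⟨h.1.or h'.1, fun x y e => or_congr (h.2 x y e) (h'.2 x y e)⟩

theorem imp (h : MD B P) (h' : MD B Q) : MD B fun x => P x → Q x :=
  ⟨h.1.imp h'.1, fun x y e => imp_congr (h.2 x y e) (h'.2 x y e)⟩

theorem iff (h : MD B P) (h' : MD B Q) : MD B fun x => P x ↔ Q x :=
  ⟨h.1.iff h'.1, fun x y e => iff_congr (h.2 x y e) (h'.2 x y e)⟩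

theorem ex {κ : Sort*} [Countable κ] {P : κ → (ι → ℕ → L) → Prop} (h : ∀ k, MD B (P k)) :
    MD B fun x => ∃ k, P k x :=
  ⟨Measurable.exists fun k => (h k).1, fun x y e => exists_congr fun k => (h k).2 x y e⟩

theorem all {κ : Sort*} [Countable κ] {P : κ → (ι → ℕ → L) → Prop} (h : ∀ k, MD B (P k)) :
    MD B fun x => ∀ k, P k x :=
  ⟨Measurable.forall fun k => (h k).1, fun x y e => forall_congr' fun k => (h k).2 x y e⟩

theorem bex {κ : Type*} {s : Set κ} (hs : s.Countable) {P : κ → (ι → ℕ → L) → Prop}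
    (h : ∀ k ∈ s, MD B (P k)) : MD B fun x => ∃ k ∈ s, P k x := by
  have := hs.to_subtype
  simpa using ex (B := B) (P := fun k : s => P k) fun k => h k k.2

theorem ball {κ : Type*} {s : Set κ} (hs : s.Countable) {P : κ → (ι → ℕ → L) → Prop}
    (h : ∀ k ∈ s, MD B (P k)) : MD B fun x => ∀ k ∈ s, P k x := by
  have := hs.to_subtype
  simpa using all (B := B) (P := fun k : s => P k) fun k => h k k.2

theorem ev {P : ℕ → (ι → ℕ → L) → Prop} (h : ∀ k, MD B (P k)) :
    MD B fun x => ∀ᶠ k in atTop, P k x := by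
  simp only [eventually_atTop]
  exact ex fun a => all fun b => (const _).imp (h b)

theorem fr {P : ℕ → (ι → ℕ → L) → Prop} (h : ∀ k, MD B (P k)) :
    MD B fun x => ∃ᶠ k in atTop, P k x := (ev fun k => (h k).not).not

/-- any property of one letter -/
theorem letter {n : ι} (hn : n ∈ B) (i : ℕ) (φ : L → Prop) : MD B fun x => φ (x n i) :=
  ⟨(measurable_from_top (f := φ)).comp ((measurable_pi_apply i).comp (measurable_pi_apply n)),
    fun x y e => by simp only [e n hn]⟩

theorem pre_eq {n : ι} (hn : n ∈ B) (i : ℕ) (τ : List L) : MD B fun x => pre (x n) i = τ := by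
  have : (fun x : ι → ℕ → L => pre (x n) i = τ) =
      fun x => τ.length = i ∧ ∀ j : Fin i, τ[j.1]? = some (x n j) := by
    funext x
    refine propext ⟨?_, fun ⟨h1, h2⟩ => ?_⟩
    · rintro rfl
      exact ⟨by simp [pre], fun j => by simp [pre]⟩
    · refine List.ext_getElem (by simp [pre, h1]) fun j a b => ?_
      have := h2 ⟨j, h1 ▸ b⟩
      rw [List.getElem?_eq_getElem b] at this
      simp [pre, Option.some.inj this]
  rw [this]
  exact (const _).and (all fun j => letter hn j fun a => τ[j.1]? = some a)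

/-- substitution of a value chosen in a countable type -/
theorem sub {α : Type*} [Countable α] {φ : α → (ι → ℕ → L) → Prop} {f : (ι → ℕ → L) → α}
    (h : ∀ a, MD B (φ a)) (hf : ∀ a, MD B fun x => f x = a) : MD B fun x => φ (f x) x := by
  have : (fun x => φ (f x) x) = fun x => ∃ a, f x = a ∧ φ a x := by
    funext x; simp
  rw [this]
  exact ex fun a => (hf a).and (h a)

/-- a property of an initial segment, with `MD` dependence on the point -/
theorem word {n : ι} (hn : n ∈ B) (i : ℕ) {φ : List L → (ι → ℕ → L) → Prop}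
    (h : ∀ τ, MD B (φ τ)) : MD B fun x => φ (pre (x n) i) x := sub h (pre_eq hn i)

/-- a property that is decided by an initial segment of fixed length -/
theorem loc {n : ι} (hn : n ∈ B) (i : ℕ) (φ : (ℕ → L) → Prop)
    (h : ∀ y y' : ℕ → L, (∀ j < i, y j = y' j) → φ y → φ y') : MD B fun x => φ (x n) := by
  have e : ∀ y : ℕ → L, ∀ j < i, y j = ofL (pre y i) j := fun y j hj => by
    simp [ofL, pre, hj]
  have : (fun x : ι → ℕ → L => φ (x n)) = fun x => φ (ofL (pre (x n) i)) := by
    funext x
    exact propext ⟨h _ _ (e _), h _ _ fun j hj => (e _ j hj).symm⟩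
  rw [this]
  exact word hn i (φ := fun τ _ => φ (ofL τ)) fun τ => const _

theorem psi_congr {y y' : ℕ → L} {z : ℕ} (h : ∀ j < z + 1, y j = y' j) : psi y z = psi y' z := by
  unfold psi
  refine Finset.sum_congr (Finset.filter_congr fun j hj => ?_) fun j hj => ?_
  · rw [h j (Finset.mem_range.1 hj)]
  · rw [h j (Finset.mem_range.1 (Finset.mem_filter.1 hj).1)]

theorem etaW {n : ι} (hn : n ∈ B) (t : V) (φ : V → Prop) : MD B fun x => φ (eta (x n) t) := by
  refine loc hn (t.support.sup (· + 1)) (fun y => φ (eta y t)) fun y y' h => ?_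
  have : eta y t = eta y' t := by
    unfold eta Finsupp.sum
    refine Finset.sum_congr rfl fun z hz => ?_
    simp only [psi_congr (z := z) fun j hj => h j (hj.trans_le (Finset.le_sup (f := (· + 1)) hz))]
  simp only [this, imp_self]

theorem good {n : ι} (hn : n ∈ B) (D : ℕ) (o : Obj) : MD B fun x => good (x n) D o := by
  refine (etaW hn o.1 (· ∈ W D)).and (all fun z => (const _).imp ?_)
  refine loc hn (z + 1) (fun y => nu y z ∈ W D) fun y y' h => ?_
  have : nu y z = nu y' z := by
    unfold nu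
    exact Finset.sum_congr rfl fun j hj => by rw [h j (Finset.mem_range.1 hj)]
  simp only [this, imp_self]

/-- selection from a countable type -/
theorem sel {α : Type*} [Countable α] [Nonempty α] {φ : α → (ι → ℕ → L) → Prop}
    (h : ∀ a, MD B (φ a)) : ∃ f : (ι → ℕ → L) → α, (∀ a, MD B fun x => f x = a) ∧
      ∀ x, (∃ a, φ a x) → φ (f x) x := by
  classical
  obtain ⟨e, he⟩ := exists_surjective_nat α
  have hex : ∀ x, ∃ n : ℕ, (φ (e n) x ∨ ¬ ∃ m, φ (e m) x) := by
    intro x
    by_cases hx : ∃ m, φ (e m) x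
    · exact hx.imp fun m hm => Or.inl hm
    · exact ⟨0, Or.inr hx⟩
  have hq : ∀ n, MD B fun x => φ (e n) x ∨ ¬ ∃ m, φ (e m) x :=
    fun n => (h _).or (ex fun m => h _).not
  refine ⟨fun x => e (Nat.find (hex x)), fun a => ?_, fun x ⟨a, ha⟩ => ?_⟩
  · refine sub (φ := fun n _ => e n = a) (fun n => const _) fun n => ?_
    simp only [Nat.find_eq_iff]
    exact (hq n).and (all fun m => (const _).imp (hq m).not)
  · obtain ⟨m, rfl⟩ := he a
    exact (Nat.find_spec (hex x)).resolve_right fun h' => h' ⟨m, ha⟩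

theorem of_meas (h : Measurable P) : MD univ P :=
  ⟨h, fun x y e => by rw [show x = y from funext fun n => e n trivial]⟩

theorem inter (h : MD B P) (h' : MD B' P) : MD (B ∩ B') P := by
  classical
  refine ⟨h.1, fun x y e => ?_⟩
  refine (h.2 x (fun n => if n ∈ B then x n else y n) fun n hn => by simp [hn]).trans
    (h'.2 _ y fun n hn => ?_)
  by_cases hB : n ∈ B
  · simp [hB, e n ⟨hB, hn⟩]
  · simp [hB]

/-- induction over the sets that depend on `B` only -/
theorem ind {Φ : ((ι → ℕ → L) → Prop) → Prop}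
    (h0 : ∀ n ∈ B, ∀ i a, Φ fun x => x n i = a) (h1 : Φ fun _ => True)
    (h3 : ∀ P, MD B P → Φ P → Φ fun x => ¬ P x)
    (h4 : ∀ P : ℕ → (ι → ℕ → L) → Prop, (∀ k, MD B (P k)) → (∀ k, Φ (P k)) → Φ fun x => ∃ k, P k x)
    (h : MD B P) : Φ P := by
  classical
  let π : (ι → ℕ → L) → ι → ℕ → L := fun x n => if n ∈ B then x n else fun _ => L.z
  have hF : Φ fun _ => False := by simpa using h3 _ (const True) h1
  have hc : ∀ p : Prop, Φ fun _ => p := fun p => by
    by_cases hp : p
    · simpa [hp] using h1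
    · simpa [hp] using hF
  let m : MeasurableSpace (ι → ℕ → L) :=
    { MeasurableSet' := fun s => MD B (fun x => π x ∈ s) ∧ Φ fun x => π x ∈ s
      measurableSet_empty := ⟨const False, hF⟩
      measurableSet_compl := fun s hs => ⟨hs.1.not, h3 _ hs.1 hs.2⟩
      measurableSet_iUnion := fun f hf => by
        simp only [mem_iUnion]
        exact ⟨ex fun k => (hf k).1, h4 _ (fun k => (hf k).1) fun k => (hf k).2⟩ }
  have hm : MeasurableSpace.pi ≤ m := by
    refine iSup_le fun n => ?_
    rw [MeasurableSpace.comap_le_iff_le_map]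
    refine iSup_le fun i => ?_
    rintro _ ⟨t, -, rfl⟩
    change MD B (fun x => π x n i ∈ t) ∧ Φ fun x => π x n i ∈ t
    by_cases hn : n ∈ B
    · simp only [π, if_pos hn]
      refine ⟨letter hn i (· ∈ t), ?_⟩
      rcases t.eq_empty_or_nonempty with rfl | ht
      · exact hF
      · obtain ⟨e, rfl⟩ := (to_countable t).exists_eq_range ht
        have := h4 (fun k x => x n i = e k) (fun k => letter hn i (· = e k)) fun k => h0 n hn i _
        simpa only [mem_range, eq_comm] using this
    · simp only [π, if_neg hn]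
      exact ⟨const _, hc _⟩
  have hP : @MeasurableSet _ MeasurableSpace.pi {x | P x} :=
    @h.1 {True} trivial |> fun h' => by simpa [preimage] using h'
  have := (hm {x | P x} hP).2
  have e : (fun x => π x ∈ {x | P x}) = P :=
    funext fun x => propext (h.2 _ _ fun n hn => by simp [π, hn])
  rwa [e] at this

/-- countable support -/
theorem count (h : MD B P) : ∃ C ⊆ B, C.Countable ∧ MD C P := by
  refine ind (B := B) (Φ := fun P => ∃ C ⊆ B, C.Countable ∧ MD C P) ?_ ?_ ?_ ?_ h
  · exact fun n hn i a => ⟨{n}, by simpa using hn, countable_singleton n,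
      letter (mem_singleton n) i (· = a)⟩
  · exact ⟨∅, empty_subset _, countable_empty, const _⟩
  · exact fun P _ ⟨C, h1, h2, h3⟩ => ⟨C, h1, h2, h3.not⟩
  · intro P _ hP
    choose C h1 h2 h3 using hP
    exact ⟨⋃ k, C k, iUnion_subset h1, countable_iUnion h2,
      ex fun k => (h3 k).mono (subset_iUnion C k)⟩

end MD

/-- deciding a countable choice on a positive set -/
theorem freq_ex {Ω : Type*} {l : Filter Ω} [CountableInterFilter l] {κ : Sort*} [Countable κ]
    {P : κ → Ω → Prop} (h : ∃ᶠ x in l, ∃ k, P k x) : ∃ k, ∃ᶠ x in l, P k x := by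
  by_contra hc
  simp only [not_exists, not_frequently] at hc
  exact h ((eventually_countable_forall.2 hc).mono fun x hx ⟨k, hk⟩ => hx k hk)

end Pool.Agent.MP_e30343_lc.SO
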