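import Pool.Agent.MP_e30343_lc.SO.RealP

/-! Section 3: STAR and Tall from an abstract genericity interface. -/

open Filter Set

namespace Pool.Agent.MP_e30343_lc.SO.R3

variable {ι X : Type} [MeasurableSpace X]

/-- measurable selection from a countable type -/
theorem adv_sel {α : Type*} [Countable α] [Nonempty α] (φ : X → α → Prop)
    (h : ∀ a, Measurable fun x => φ x a) :
    ∃ f : X → α, (∀ a, Measurable fun x => f x = a) ∧ ∀ x, (∃ a, φ x a) → φ x (f x) := by
  classical
  obtain ⟨e, he⟩ := exists_surjective_nat α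
  have hex : ∀ x, ∃ n : ℕ, (φ x (e n) ∨ ¬ ∃ m, φ x (e m)) := by
    intro x
    by_cases hx : ∃ m, φ x (e m)
    · obtain ⟨m, hm⟩ := hx
      exact ⟨m, Or.inl hm⟩
    · exact ⟨0, Or.inr hx⟩
  have hm : Measurable fun x => Nat.find (hex x) := by
    refine measurable_find hex fun k => ?_
    refine measurableSet_setOfPred.2 ?_
    exact (h _).or (Measurable.exists fun m => h _).not
  refine ⟨fun x => e (Nat.find (hex x)), fun a => ?_, fun x hx => ?_⟩
  · exact (measurable_from_top (f := fun n : ℕ => e n = a)).comp hm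
  · rcases Nat.find_spec (hex x) with h1 | h1
    · exact h1
    · obtain ⟨a, ha⟩ := hx
      obtain ⟨m, rfl⟩ := he a
      exact absurd ⟨m, ha⟩ h1

theorem meas_ball {F : Finset ι} {p : ι → X → Prop} (h : ∀ b, Measurable (p b)) :
    Measurable fun x => ∀ b ∈ F, p b x := by
  have : (fun x => ∀ b ∈ F, p b x) = fun x => ∀ b : F, p b x := by
    funext x; simp
  rw [this]
  exact Measurable.forall fun b => h b

theorem meas_sInf {p : X → ℕ → Prop} (h : ∀ c, Measurable fun x => p x c) :
    Measurable fun x => sInf {c | p x c} := by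
  refine measurable_to_countable' fun m => ?_
  have : (fun x => sInf {c | p x c}) ⁻¹' {m} =
      {x | (p x m ∧ ∀ k, k < m → ¬ p x k) ∨ (m = 0 ∧ ∀ k, ¬ p x k)} := by
    ext x
    simp only [mem_preimage, mem_singleton_iff, mem_ofPred_eq]
    by_cases hne : {c | p x c}.Nonempty
    · constructor
      · rintro rfl
        exact Or.inl ⟨Nat.sInf_mem hne, fun k hk => Nat.notMem_of_lt_sInf hk⟩
      · rintro (⟨h1, h2⟩ | ⟨-, h2⟩)
        · exact le_antisymm (Nat.sInf_le h1) (not_lt.1 fun hl => h2 _ hl (Nat.sInf_mem hne))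
        · exact absurd hne.some_mem (h2 _)
    · rw [not_nonempty_iff_eq_empty] at hne
      have h0 : ∀ k, ¬ p x k := fun k hk => (eq_empty_iff_forall_notMem.1 hne) k hk
      rw [hne, Nat.sInf_empty]
      exact ⟨fun e => Or.inr ⟨e.symm, h0⟩, fun e => e.elim (fun e => absurd e.1 (h0 _))
        fun e => e.1.symm⟩
  rw [this]
  exact measurableSet_setOfPred.2
    (((h m).and (Measurable.forall fun k => measurable_const.imp (h k).not)).or
      (measurable_const.and (Measurable.forall fun k => (h k).not)))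

section Meas
variable {yy : ι → X → ℕ → Lt} (ym : ∀ b i (φ : Lt → Prop), Measurable fun x => φ (yy b x i))
  {P : V → X → Prop} (hP : ∀ v, Measurable (P v))
include ym hP

theorem rdp_meas (F : Finset ι) (i : ℕ) (o : Ob) :
    Measurable fun x => RDp (fun b => yy b x) {v | P v x} F i o :=
  (hP _).and (measurable_const.and (measurable_const.and (meas_ball fun b =>
    Measurable.forall fun j => ym b j fun e => e.2.2 ∉ W i → pr o.2 e.1 = 0)))

theorem realP_meas (F : Finset ι) (i : ℕ) :
    Measurable fun x => RealP (fun b => yy b x) {v | P v x} F i :=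
  Measurable.forall fun _ => Measurable.exists fun o => (rdp_meas ym hP F i o).and measurable_const

theorem domP_meas (F : Finset ι) (i : ℕ) (o : Ob) :
    Measurable fun x => DomP (fun b => yy b x) {v | P v x} F i o :=
  ((realP_meas ym hP F i).and (rdp_meas ym hP F i o)).or
    ((realP_meas ym hP F i).not.and measurable_const)

theorem starSel_meas (F : ℕ → Finset ι) (n : ι) (i : ℕ) (w : V) :
    Measurable fun x => StarSel (fun b => yy b x) {v | P v x} F n i w :=
  (hP _).and (measurable_const.and ((Measurable.forall fun i' => realP_meas ym hP _ i').imp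
    (Measurable.exists fun l => ym n l fun e => i ≤ l ∧ w = e.1 ∧ e.2.2 ∉ W 1)))

end Meas

theorem domP_congr {y y' : ι → ℕ → Lt} {F : Finset ι} (h : ∀ b ∈ F, y b = y' b) (P : Set V)
    (i : ℕ) : DomP y P F i = DomP y' P F i := by
  have e : RDp y P F i = RDp y' P F i := by
    funext o
    unfold RDp
    refine propext (and_congr_right fun _ => and_congr_right fun _ => and_congr_right fun _ =>
      forall₂_congr fun b hb => by rw [h b hb])
  funext o
  unfold DomP RealP
  rw [e]

variable [LinearOrder ι]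

/-- what section 3 uses of the forcing -/
structure RA (mu : Filter X) (yy : ι → X → ℕ → Lt) (Yn : ι → Prop) (supp : ι → Set ι)
    (par : ι → V → X → Prop) (F : ι → ℕ → Finset ι) : Prop where
  ym : ∀ b i (φ : Lt → Prop), Measurable fun x => φ (yy b x i)
  yK : ∀ b x, ¬ Yn b → yy b x = fun _ => (0, ∅, 0)
  cl : ∀ n, ∀ b ∈ supp n, supp b ⊆ supp n
  cnt : ∀ n, (supp n).Countable
  Fc : ∀ n i, (F n i).card ≤ i
  Fs : ∀ n i, ∀ b ∈ F n i, b ∈ supp n
  Fe : ∀ n, ∀ b ∈ supp n, ∀ᶠ i in atTop, b ∈ F n i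
  book : ∀ P : V → X → Prop, (∀ v, Measurable (P v)) → ∃ n, Yn n ∧ par n = P
  dom : ∀ n, Yn n → ∀ᶠ x in mu, ∀ᶠ i in atTop,
    DomP (fun b => yy b x) {v | par n v x} (F n i) i (yy n x i).ob
  good : ∀ n, Yn n → ∀ a < n, a ∉ supp n → ∀ D, ∀ᶠ x in mu, ∀ᶠ i in atTop,
    Good (yy a x) D (yy n x i).ob
  far : ∀ n, Yn n → ∀ (k : X → ℕ → ℕ) (bd : (ℕ → Lt) → ℕ → ℕ),
    (∀ m, Measurable fun x => k x m) → (∀ x x', (∀ b < n, yy b x = yy b x') → k x = k x') →
    (∀ y y' i, (∀ j < i, y j = y' j) → bd y i = bd y' i) →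
    ∀ᶠ x in mu, ∀ᶠ i in atTop, Far (k x (bd (yy n x) i)) (yy n x i).ob
  eps : ∀ n, Yn n → ∀ᶠ x in mu, ∃ᶠ i in atTop, (yy n x i).2.2 ∉ W 1

namespace RA
variable {mu : Filter X} {yy : ι → X → ℕ → Lt} {Yn : ι → Prop} {supp : ι → Set ι}
  {par : ι → V → X → Prop} {F : ι → ℕ → Finset ι} (h : RA mu yy Yn supp par F)
include h

theorem sep (b : ι) : ∀ᶠ x in mu, Sep (yy b x) := by
  by_cases hb : Yn b
  · refine (h.far b hb (fun _ m => m) (fun y i => max i (sInf {k | Bd y i k}))
      (fun _ => measurable_const) (fun _ _ _ => rfl) fun y y' i e => ?_).mono fun x hx => ?_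
    · have : {k | Bd y i k} = {k | Bd y' i k} := by
        ext k
        exact forall₂_congr fun j hj => by rw [e j hj]
      rw [this]
    · exact hx.mono fun i hi => ⟨_, le_max_left _ _,
        Bd.mono (Nat.sInf_mem (s := {k | Bd (yy b x) i k}) (exists_bd _ i)) (le_max_right _ _), hi⟩
  · refine Eventually.of_forall fun x => Eventually.of_forall fun l => ⟨l, le_rfl, ?_, ?_⟩
    · rw [h.yK b x hb]
      exact fun i _ => ⟨fun _ _ => rfl, by simp⟩
    · rw [h.yK b x hb]
      exact far_empty l

theorem hier (G : Finset ι) : ∀ᶠ x in mu, Hier (fun b j => (yy b x j).1) G := by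
  have key : ∀ b, ∀ᶠ x in mu, ∀ᶠ l in atTop, (yy b x l).1 ∈ W (nextCut (fun b j => (yy b x j).1)
      (G.filter (· < b)) (blkBd (fun j => (yy b x j).1) l + l)) := by
    intro b
    by_cases hb : Yn b
    · refine (h.far b hb (fun x m => nextCut (fun b j => (yy b x j).1) (G.filter (· < b)) m)
        (fun y l => blkBd (fun j => (y j).1) l + l) (fun m => ?_) (fun x x' e => ?_)
        fun y y' i e => ?_).mono fun x hx => hx.mono fun i hi => hi.1
      · exact meas_sInf fun c => measurable_const.and (meas_ball fun b =>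
          Measurable.forall fun j => h.ym b j fun e => Below c e.1 ∨ e.1 ∈ W c)
      · funext m
        unfold nextCut Cut
        congr 1
        ext c
        exact and_congr_right fun _ => forall₂_congr fun b' hb' => by
          simp only [e b' (Finset.mem_filter.1 hb').2]
      · unfold blkBd
        congr 2
        ext k
        exact forall₂_congr fun j hj => by simp only [e j hj]
    · exact Eventually.of_forall fun x => Eventually.of_forall fun l => by
        rw [h.yK b x hb]; exact zero_mem _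
  exact ((eventually_all_finset G).2 fun b _ => key b).mono fun x hx => hier_of_next hx

theorem van_gt {a b : ι} (hab : a < b) (hs : a ∉ supp b) (D : ℕ) :
    ∀ᶠ x in mu, ∀ᶠ l in atTop, eta (yy a x) (yy b x l).1 ∈ W D := by
  by_cases hb : Yn b
  · exact (h.good b hb a hab hs D).mono fun x hx => hx.mono fun l hl => hl.1
  · exact Eventually.of_forall fun x => Eventually.of_forall fun l => by
      rw [h.yK b x hb]; simp

theorem van_lt {a b : ι} (hab : b < a) (D : ℕ) :
    ∀ᶠ x in mu, ∀ᶠ l in atTop, (yy b x l).2.2 ∉ W D → eta (yy a x) (yy b x l).1 = 0 := by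
  by_cases ha : Yn a
  · by_cases hs : b ∈ supp a
    · filter_upwards [h.sep a, h.sep b, h.dom a ha] with x h1 h2 h3
      refine van_orth (J := {l | (yy b x l).2.2 ∉ W D}) h1.far (h2.far.mono fun l hl => hl.1) ?_
      filter_upwards [h3, h.Fe a b hs, eventually_ge_atTop D] with i i1 i2 i3 l hl
      exact i1.orth i2 fun hw => hl (W_anti i3 hw)
    · filter_upwards [h.sep a, h.sep b, h.good a ha b hab hs D] with x h1 h2 h3
      exact van_good h1.far h2 h3
  · refine Eventually.of_forall fun x => Eventually.of_forall fun l _ => ?_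
    rw [h.yK a x ha]
    exact eta_eq_zero fun i => by simp [pr]

theorem van_slf (b : ι) : ∀ᶠ x in mu, ∀ᶠ l in atTop,
    (yy b x l).1 = 0 ∨ eta (yy b x) (yy b x l).1 = (yy b x l).2.2 := by
  by_cases hb : Yn b
  · filter_upwards [h.sep b, h.dom b hb] with x h1 h2
    filter_upwards [van_self h1, h2] with l l1 l2
    exact l2.self.imp id l1
  · exact Eventually.of_forall fun x => Eventually.of_forall fun l => by
      rw [h.yK b x hb]; exact Or.inl rfl

variable [CountableInterFilter mu]

theorem star (P : V → X → Prop) (hP : ∀ v, Measurable (P v)) :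
    ∃ (E : Set ι) (q : X → ℕ → V), E.Countable ∧ (∀ i v, Measurable fun x => q x i = v) ∧
      (∀ᶠ x in mu, (∀ k, ∃ w, P w x ∧ w ∈ W k) → ∀ i, P (q x i) x ∧ q x i ∈ W i) ∧
      ∀ a ∉ E, ∀ᶠ x in mu, (∀ k, ∃ w, P w x ∧ w ∈ W k) →
        ∀ D, ∀ᶠ i in atTop, eta (yy a x) (q x i) ∈ W D := by
  obtain ⟨n, hn, rfl⟩ := h.book P hP
  choose q hq1 hq2 using fun i => adv_sel
    (fun x w => StarSel (fun b => yy b x) {v | par n v x} (F n) n i w)
    (starSel_meas h.ym hP (F n) n i)
  have sel : ∀ᶠ x in mu, (∀ k, ∃ w, par n w x ∧ w ∈ W k) →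
      ∀ i, StarSel (fun b => yy b x) {v | par n v x} (F n) n i (q i x) := by
    filter_upwards [h.dom n hn, h.sep n, h.eps n hn] with x h1 h2 h3 hx i
    exact hq2 i x (starSel_ex hx h1 h2.far h3 i)
  refine ⟨insert n (supp n), fun x i => q i x, (h.cnt n).insert n, hq1,
    sel.mono fun x hx h0 i => ⟨(hx h0 i).1, (hx h0 i).2.1⟩, fun a ha => ?_⟩
  have van : ∀ b ∈ insert n (supp n), ∀ D D', ∀ᶠ x in mu, ∀ᶠ l in atTop,
      (yy b x l).2.2 ∉ W D' → eta (yy a x) (yy b x l).1 ∈ W D := by
    intro b hb D D'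
    rcases lt_trichotomy a b with l | rfl | l
    · refine (h.van_gt l (fun hs => ha (Or.inr ?_)) D).mono fun x hx => hx.mono fun _ e _ => e
      rcases hb with rfl | hb
      · exact hs
      · exact h.cl n b hb hs
    · exact absurd hb ha
    · exact (h.van_lt l D').mono fun x hx => hx.mono fun _ e e' => by rw [e e']; exact zero_mem _
  filter_upwards [sel, eventually_countable_forall.2 fun i => h.hier (F n i),
    (eventually_countable_ball ((h.cnt n).insert n)).2 fun b hb =>
      eventually_countable_forall.2 fun D => eventually_countable_forall.2 fun D' =>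
        van b hb D D'] with x h1 h2 h3 h0 D
  exact star_pt (y := fun b => yy b x) (h.Fc n) h2
    (fun i b hb D' => h3 b (hb.elim (fun e => Or.inr (h.Fs n i b e)) Or.inl) D D') (h1 h0)

theorem tall (Z : ℕ → X → Prop) (hZ : ∀ z, Measurable (Z z)) :
    ∃ E : Set ι, E.Countable ∧ ∀ᶠ x in mu, (∃ᶠ z in atTop, Z z x) →
      ∃ b ∈ E, ∃ j, ∃ᶠ z in atTop, Z z x ∧ eta (yy b x) (Finsupp.single z 1) j ≠ 0 := by
  obtain ⟨n, hn, e⟩ := h.book (fun w x => ∃ z, Z z x ∧ w = Finsupp.single z 1)
    fun w => Measurable.exists fun z => (hZ z).and measurable_const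
  refine ⟨insert n (supp n), (h.cnt n).insert n, ?_⟩
  filter_upwards [h.dom n hn, h.sep n, h.eps n hn,
    eventually_countable_forall.2 fun i => h.hier (F n i),
    (eventually_countable_ball (h.cnt n)).2 fun b _ => h.van_slf b,
    (eventually_countable_ball (h.cnt n)).2 fun b _ =>
      (eventually_countable_ball (h.cnt n)).2 fun b' _ => eventually_countable_forall.2 fun D =>
        eventually_imp_distrib_left.2 fun l : b' < b => h.van_lt l D] with x h1 h2 h3 h4 h5 h6 h0
  rw [e] at h1
  obtain ⟨b, hb, hj⟩ := tall_pt (y := fun b => yy b x) (Z := {z | Z z x}) h0 (h.Fc n) h4 h1 h2 h3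
    (fun i b hb => h5 b (h.Fs n i b hb))
    (fun i b hb b' hb' l => h6 b (h.Fs n i b hb) b' (h.Fs n i b' hb') i l)
  exact ⟨b, hb.elim Or.inl fun ⟨i, hi⟩ => Or.inr (h.Fs n i b hi), hj⟩

end RA

end Pool.Agent.MP_e30343_lc.SO.R3
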