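import Pool.Agent.Lib.Forcing.Defs

/-!
Topological groups and their sequential order, read inside a structure `(M, E)` for the language of
set theory. Every quantifier ranges over `M`.
-/

namespace Pool.Agent.MP_e30343_lc.SO

open Pool.Agent.Lib.Forcing

universe u

variable {M : Type u} (E : M → M → Prop)

/-- `A ⊆ B`. -/
def Sub (A B : M) : Prop := ∀ x, E x A → E x B

/-- `m (x, y) = z`. -/
def Mu (m x y z : M) : Prop := ∃ p, Pr E x y p ∧ Ap E m p z

/-- `e` is a two-sided identity of `(G, m)`. -/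
def Idt (G m e : M) : Prop := E e G ∧ ∀ x, E x G → Mu E m e x x ∧ Mu E m x e x

/-- `(G, m)` is a group. -/
def Grp (G m : M) : Prop :=
  (∀ x y, E x G → E y G → ∃! z, Mu E m x y z) ∧
  (∀ x y z, E x G → E y G → Mu E m x y z → E z G) ∧
  (∀ x y z a b c, E x G → E y G → E z G → Mu E m x y a → Mu E m a z b → Mu E m y z c →
    Mu E m x c b) ∧
  ∃ e, Idt E G m e ∧ ∀ x, E x G → ∃ y, E y G ∧ Mu E m x y e ∧ Mu E m y x e

/-- `T` is a topology on `G` (the set of open sets). -/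
def Top (G T : M) : Prop :=
  (∀ U, E U T → Sub E U G) ∧ E G T ∧
  (∀ U V, E U T → E V T → ∃ W, E W T ∧ ∀ z, E z W ↔ E z U ∧ E z V) ∧
  ∀ F, Sub E F T → ∃ W, E W T ∧ ∀ z, E z W ↔ ∃ U, E U F ∧ E z U

/-- `(G, m, T)` is a Hausdorff topological group. -/
def TG (G m T : M) : Prop :=
  Grp E G m ∧ Top E G T ∧
  (∀ x y, E x G → E y G → x ≠ y →
    ∃ U V, E U T ∧ E V T ∧ E x U ∧ E y V ∧ ∀ z, ¬ (E z U ∧ E z V)) ∧
  (∀ x y z W, E x G → E y G → Mu E m x y z → E W T → E z W →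
    ∃ U V, E U T ∧ E V T ∧ E x U ∧ E y V ∧
      ∀ x' y' z', E x' U → E y' V → Mu E m x' y' z' → E z' W) ∧
  ∀ e x y W, Idt E G m e → E x G → E y G → Mu E m x y e → E W T → E y W →
    ∃ U, E U T ∧ E x U ∧ ∀ x' y', E x' U → E y' G → Mu E m x' y' e → E y' W

/-- The sequence `s` (a function on `w = ω`) converges to `x`. -/
def Cvg (T w s x : M) : Prop :=
  ∀ U, E U T → E x U → ∃ n, E n w ∧ ∀ k y, E k w → E n k → Ap E s k y → E y U

/-- `x ∈ [A]'`: `x` is the limit of a convergent sequence of points of `A`. -/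
def Lim (G T w A x : M) : Prop := E x G ∧ ∃ s, Fn E w (fun _ y => E y A) s ∧ Cvg E T w s x

/-- `x` is in the closure of `A`. -/
def Cl (G T A x : M) : Prop := E x G ∧ ∀ U, E U T → E x U → ∃ y, E y U ∧ E y A

/-- The space is sequential: every `A` with `[A]' = A` is closed. -/
def Sq (G T w : M) : Prop :=
  ∀ A, Sub E A G → (∀ x, Lim E G T w A x ↔ E x A) → ∀ x, Cl E G T A x → E x A

/-- `a` is an ordinal: transitive and linearly ordered by `∈`. -/
def Od (a : M) : Prop :=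
  (∀ x y, E x a → E y x → E y a) ∧ ∀ x y, E x a → E y a → E x y ∨ x = y ∨ E y x

/-- `Y = [A]_a`: a function `f` on `a + 1` with `f 0 = A`, `f (b + 1) = [f b]'`,
`f c = ⋃_{b < c} f b` for limit `c`, and `f a = Y`. -/
def It (G T w A a Y : M) : Prop :=
  ∃ f a', Suc E a a' ∧ Fn E a' (fun _ _ => True) f ∧ Ap E f a Y ∧
    (∀ b X, Ap E f b X → Emp E b → X = A) ∧
    (∀ b c X X', Suc E b c → Ap E f b X → Ap E f c X' → ∀ x, E x X' ↔ Lim E G T w X x) ∧
    ∀ c X', Ap E f c X' → ¬ Emp E c → (¬ ∃ b, Suc E b c) →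
      ∀ x, E x X' ↔ ∃ b X, E b c ∧ Ap E f b X ∧ E x X

/-- `[A]_a` is the closure of `A` for every `A ⊆ G`. -/
def Cls (G T w a : M) : Prop :=
  ∀ A, Sub E A G → ∃ Y, It E G T w A a Y ∧ ∀ x, E x Y ↔ Cl E G T A x

/-- The sequential order of the space is `a`. -/
def So (G T w a : M) : Prop := Od E a ∧ Cls E G T w a ∧ ∀ b, E b a → ¬ Cls E G T w b

/-- `a` is the natural number `n`. -/
def Num : ℕ → M → Prop
  | 0, a => Emp E a
  | n + 1, a => ∃ b, Num n b ∧ Suc E b a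

/-- `a` is an ordinal with `1 < a < ω₁`. -/
def Mid (w a : M) : Prop :=
  Od E a ∧ (∃ o, Num E 1 o ∧ E o a) ∧ Le E (fun x => E x a) (fun y => E y w)

/-- `a ∈ S`: `1 < a < ω₁` and some sequential Hausdorff group has sequential order `a`. -/
def InS (w a : M) : Prop :=
  Mid E w a ∧ ∃ G m T, TG E G m T ∧ Sq E G T w ∧ So E G T w a

end Pool.Agent.MP_e30343_lc.SO
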