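import Pool.Agent.MP_e30343_lc.SO.BG

/-! Boolean valued groups by neighbourhoods of `1`: calculus of null sequences, exhaustion. -/

open Filter Set

namespace Pool.Agent.MP_e30343_lc.SO.N3

universe u

section
variable {X : Type}

/-- a class of predicates closed under countable Boolean operations -/
structure Cls (M : (X → Prop) → Prop) : Prop where
  const : ∀ p : Prop, M fun _ => p
  neg : ∀ {P}, M P → M fun x => ¬ P x
  all : ∀ {P : ℕ → X → Prop}, (∀ n, M (P n)) → M fun x => ∀ n, P n x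

namespace Cls
variable {M : (X → Prop) → Prop} (h : Cls M)
include h

theorem all' {κ : Type} [Countable κ] {P : κ → X → Prop} (hP : ∀ n, M (P n)) :
    M fun x => ∀ n, P n x := by
  cases isEmpty_or_nonempty κ
  · simpa using h.const True
  · obtain ⟨e, he⟩ := exists_surjective_nat κ
    have : (fun x => ∀ n, P n x) = fun x => ∀ n, P (e n) x :=
      funext fun x => propext he.forall
    rw [this]
    exact h.all fun n => hP _

theorem ex {κ : Type} [Countable κ] {P : κ → X → Prop} (hP : ∀ n, M (P n)) :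
    M fun x => ∃ n, P n x := by
  simpa using h.neg (h.all' fun n => h.neg (hP n))

theorem and {P P' : X → Prop} (hP : M P) (hP' : M P') : M fun x => P x ∧ P' x := by
  simpa using h.all' (κ := Bool) (P := fun b => cond b P' P) (by simp [hP, hP'])

theorem or {P P' : X → Prop} (hP : M P) (hP' : M P') : M fun x => P x ∨ P' x := by
  simpa [or_iff_not_and_not] using h.neg (h.and (h.neg hP) (h.neg hP'))

theorem imp {P P' : X → Prop} (hP : M P) (hP' : M P') : M fun x => P x → P' x := by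
  simpa [imp_iff_not_or] using h.or (h.neg hP) hP'

theorem ev {P : ℕ → X → Prop} (hP : ∀ n, M (P n)) : M fun x => ∀ᶠ n in atTop, P n x := by
  simp only [eventually_atTop]
  exact h.ex fun a => h.all fun n => h.imp (h.const _) (hP n)

theorem fr {P : ℕ → X → Prop} (hP : ∀ n, M (P n)) : M fun x => ∃ᶠ n in atTop, P n x :=
  h.neg (h.ev fun n => h.neg (hP n))

theorem sub {α : Type} [Countable α] {φ : X → α → Prop} {f : X → α}
    (hφ : ∀ a, M fun x => φ x a) (hf : ∀ a, M fun x => f x = a) : M fun x => φ x (f x) := by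
  have : (fun x => φ x (f x)) = fun x => ∃ a, f x = a ∧ φ x a := by
    funext x; simp
  rw [this]
  exact h.ex fun a => h.and (hf a) (hφ a)

/-- selection from a countable type -/
theorem sel {α : Type} [Countable α] [Nonempty α] (φ : X → α → Prop)
    (hφ : ∀ a, M fun x => φ x a) :
    ∃ f : X → α, (∀ a, M fun x => f x = a) ∧ ∀ x, (∃ a, φ x a) → φ x (f x) := by
  classical
  obtain ⟨e, he⟩ := exists_surjective_nat α
  have hex : ∀ x, ∃ n : ℕ, (φ x (e n) ∨ ¬ ∃ m, φ x (e m)) := by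
    intro x
    by_cases hx : ∃ m, φ x (e m)
    · obtain ⟨m, hm⟩ := hx
      exact ⟨m, Or.inl hm⟩
    · exact ⟨0, Or.inr hx⟩
  refine ⟨fun x => e (Nat.find (hex x)), fun a => ?_, fun x hx => ?_⟩
  · have : (fun x => e (Nat.find (hex x)) = a) = fun x => ∃ n, e n = a ∧
        (φ x (e n) ∨ ¬ ∃ m, φ x (e m)) ∧ ∀ k, k < n → ¬ (φ x (e k) ∨ ¬ ∃ m, φ x (e m)) := by
      funext x
      refine propext ⟨fun hx => ⟨_, hx, Nat.find_spec (hex x), fun k hk => Nat.find_min _ hk⟩, ?_⟩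
      rintro ⟨n, h1, h2, h3⟩
      rw [(Nat.find_eq_iff (hex x)).2 ⟨h2, h3⟩, h1]
    rw [this]
    have h0 : ∀ n, M fun x => φ x (e n) ∨ ¬ ∃ m, φ x (e m) := fun n =>
      h.or (hφ _) (h.neg (h.ex fun m => hφ _))
    exact h.ex fun n => h.and (h.const _) (h.and (h0 n)
      (h.all fun k => h.imp (h.const _) (h.neg (h0 k))))
  · rcases Nat.find_spec (hex x) with h1 | h1
    · exact h1
    · obtain ⟨a, ha⟩ := hx
      obtain ⟨m, rfl⟩ := he a
      exact absurd ⟨m, ha⟩ h1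

end Cls

theorem fr_ex {l : Filter X} [CountableInterFilter l] {κ : Type} [Countable κ]
    {P : κ → X → Prop} (h : ∃ᶠ x in l, ∃ k, P k x) : ∃ k, ∃ᶠ x in l, P k x := by
  by_contra hcon
  push Not at hcon
  exact h ((eventually_countable_forall.2 hcon).mono fun x hx => not_exists.2 hx)

end

variable {X : Type} [MeasurableSpace X]

theorem cls_meas : Cls (fun P : X → Prop => Measurable P) :=
  ⟨fun _ => measurable_const, fun h => h.not, fun h => Measurable.forall h⟩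

/-- a measurably chosen element out of countably many -/
def Mx {α : Type*} (q : X → α) : Prop := (range q).Countable ∧ ∀ a, Measurable fun x => q x = a

namespace Mx
variable {α β : Type*} {q : X → α} {q' : X → β}

theorem const (a : α) : Mx fun _ : X => a :=
  ⟨(countable_singleton a).mono (by rintro _ ⟨_, rfl⟩; rfl), fun _ => measurable_const⟩

theorem meas (h : Mx q) {φ : α → X → Prop} (hφ : ∀ a, Measurable (φ a)) :
    Measurable fun x => φ (q x) x := by
  have := h.1.to_subtype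
  have e : (fun x => φ (q x) x) = fun x => ∃ a : range q, q x = a.1 ∧ φ a.1 x := by
    funext x; simp
  rw [e]
  exact Measurable.exists fun a => (h.2 a.1).and (hφ a.1)

theorem comp {p : α → X → β} (h : Mx q) (hp : ∀ a, Mx (p a)) : Mx fun x => p (q x) x := by
  refine ⟨(h.1.biUnion fun a _ => (hp a).1).mono ?_, fun b => h.meas fun a => (hp a).2 b⟩
  rintro _ ⟨x, rfl⟩
  exact mem_biUnion (mem_range_self x) (mem_range_self x)

theorem map (h : Mx q) (f : α → β) : Mx fun x => f (q x) := h.comp fun a => const (f a)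

theorem map2 {γ : Type*} (h : Mx q) (h' : Mx q') (f : α → β → γ) : Mx fun x => f (q x) (q' x) :=
  h.comp (p := fun a x => f a (q' x)) fun a => h'.map (f a)

theorem of_cnt [Countable α] (h : ∀ a, Measurable fun x => q x = a) : Mx q :=
  ⟨to_countable _, h⟩

theorem of_meas [Countable α] [MeasurableSpace α] [MeasurableSingletonClass α] (h : Measurable q) :
    Mx q := of_cnt fun a => measurableSet_setOfPred.1 (h (measurableSet_singleton a))

theorem measurable [Countable α] [MeasurableSpace α] (h : Mx q) : Measurable q :=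
  measurable_to_countable' fun a => measurableSet_setOfPred.2 (h.2 a)

theorem ae {ν : Filter X} [CountableInterFilter ν] (h : Mx q) {φ : α → X → Prop}
    (hφ : ∀ a, ∀ᶠ x in ν, φ a x) : ∀ᶠ x in ν, φ (q x) x :=
  ((eventually_countable_ball h.1).2 fun a _ => hφ a).mono fun x hx => hx _ (mem_range_self x)

theorem mul [Mul α] {p : X → α} (h : Mx q) (h' : Mx p) : Mx fun x => q x * p x :=
  h.map2 h' (· * ·)

theorem inv [Inv α] (h : Mx q) : Mx fun x => (q x)⁻¹ := h.map (·⁻¹)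

end Mx

/-- exhaustion -/
theorem exh {ν : Filter X} [CCC ν] [CountableInterFilter ν] (Φ : (X → Prop) → Prop)
    (h0 : Φ fun _ => False)
    (h : ∀ R, Measurable R → (∃ᶠ x in ν, R x) →
      ∃ R', Measurable R' ∧ (∃ᶠ x in ν, R x ∧ R' x) ∧ Φ R') :
    ∃ (R : ℕ → X → Prop) (f : X → ℕ), (∀ n, Φ (R n)) ∧ Mx f ∧ ∀ᶠ x in ν, R (f x) x := by
  obtain ⟨C, hC, hc, hs⟩ := CCC.sup (l := ν) {R | Measurable R ∧ Φ R} fun P hP => hP.1
  obtain ⟨R, hR⟩ := (hc.insert fun _ => False).exists_eq_range (insert_nonempty _ _)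
  have h1 : ∀ n, Measurable (R n) ∧ Φ (R n) := fun n => by
    have : R n ∈ insert (fun _ => False) C := hR ▸ mem_range_self n
    rcases this with h' | h'
    · rw [h']; exact ⟨measurable_const, h0⟩
    · exact hC h'
  obtain ⟨f, hf, hf'⟩ := cls_meas.sel (fun x n => R n x) fun n => (h1 n).1
  refine ⟨R, f, fun n => (h1 n).2, Mx.of_cnt hf, ?_⟩
  by_contra hcon
  have h2 : ∃ᶠ x in ν, ¬ ∃ n, R n x := by
    rw [not_eventually] at hcon
    exact hcon.mono fun x hx hx' => hx (hf' x hx')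
  obtain ⟨R', hm, hp, hΦ⟩ := h _ (Measurable.exists fun n => (h1 n).1).not h2
  obtain ⟨x, ⟨h3, h4⟩, h5⟩ := (hp.and_eventually (hs R' ⟨hm, hΦ⟩)).exists
  obtain ⟨P, hP, h6⟩ := h5 h4
  obtain ⟨n, rfl⟩ : P ∈ range R := hR ▸ mem_insert_of_mem _ hP
  exact h3 ⟨n, h6⟩

/-- measurably chosen sequences -/
abbrev Ms {α : Type*} (q : X → ℕ → α) : Prop := ∀ n, Mx fun x => q x n

section ae
variable {ν : Filter X} [CountableInterFilter ν] {α β γ : Type*}

theorem Mx.ae2 {q : X → α} {q' : X → β} (h : Mx q) (h' : Mx q') {φ : α → β → X → Prop}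
    (hφ : ∀ a b, ∀ᶠ x in ν, φ a b x) : ∀ᶠ x in ν, φ (q x) (q' x) x :=
  h.ae (φ := fun a x => φ a (q' x) x) fun a => h'.ae (hφ a)

theorem Ms.ae {q : X → ℕ → α} (h : Ms q) {φ : α → X → Prop} (hφ : ∀ a, ∀ᶠ x in ν, φ a x) :
    ∀ᶠ x in ν, ∀ n, φ (q x n) x := eventually_countable_forall.2 fun n => (h n).ae hφ

theorem Ms.ae2 {q : X → ℕ → α} {q' : X → ℕ → β} (h : Ms q) (h' : Ms q') {φ : α → β → X → Prop}
    (hφ : ∀ a b, ∀ᶠ x in ν, φ a b x) : ∀ᶠ x in ν, ∀ n, φ (q x n) (q' x n) x :=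
  eventually_countable_forall.2 fun n => (h n).ae2 (h' n) hφ

theorem Ms.ae3 {q : X → ℕ → α} {q' : X → ℕ → β} {q'' : X → ℕ → γ} (h : Ms q) (h' : Ms q')
    (h'' : Ms q'') {φ : α → β → γ → X → Prop} (hφ : ∀ a b c, ∀ᶠ x in ν, φ a b c x) :
    ∀ᶠ x in ν, ∀ n, φ (q x n) (q' x n) (q'' x n) x :=
  eventually_countable_forall.2 fun n => (h n).ae (φ := fun a x => φ a (q' x n) (q'' x n) x)
    fun a => (h' n).ae2 (h'' n) (hφ a)

theorem Ms.sub {q : X → ℕ → α} (h : Ms q) {i : X → ℕ} (hi : Mx i) : Mx fun x => q x (i x) :=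
  hi.comp (p := fun n x => q x n) h

end ae

section BG
variable {ν : Filter X} (B : BG.{u} ν)

/-- null sequences on `R` -/
abbrev Nl (R : X → Prop) (q : X → ℕ → B.G) : Prop := NlR ν B.mem R q

variable {B}

theorem nul_inv (g : B.G) : ∀ᶠ x in ν, B.nul g x → B.nul g⁻¹ x := by
  filter_upwards [B.nul_one, B.nul_div 1 g] with x h1 h2 h
  simpa using h2 h1 h

theorem nul_mul (g h : B.G) : ∀ᶠ x in ν, B.nul g x → B.nul h x → B.nul (g * h) x := by
  filter_upwards [nul_inv h, B.nul_div g h⁻¹] with x h1 h2 a b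
  simpa using h2 a (h1 b)

theorem nul_mem (g : B.G) (U : B.O) : ∀ᶠ x in ν, B.nul g x → B.mem g U x := by
  filter_upwards [B.mem_one U, B.mem_nul 1 g U] with x h1 h2 a
  exact h2 (by simpa using a) h1

theorem eq_symm (g h : B.G) : ∀ᶠ x in ν, B.nul (g⁻¹ * h) x → B.nul (h⁻¹ * g) x := by
  filter_upwards [nul_inv (g⁻¹ * h)] with x h1 a
  simpa using h1 a

theorem eq_mul (g h g' h' : B.G) : ∀ᶠ x in ν, B.nul (g⁻¹ * h) x → B.nul (g'⁻¹ * h') x →
    B.nul ((g * g')⁻¹ * (h * h')) x := by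
  filter_upwards [B.nul_conj (g⁻¹ * h) g'⁻¹, nul_mul (g'⁻¹ * (g⁻¹ * h) * g'⁻¹⁻¹) (g'⁻¹ * h')]
    with x h1 h2 a b
  have := h2 (h1 a) b
  convert this using 1
  group

theorem eq_inv (g h : B.G) : ∀ᶠ x in ν, B.nul (g⁻¹ * h) x → B.nul (g⁻¹⁻¹ * h⁻¹) x := by
  filter_upwards [eq_symm g h, B.nul_conj (h⁻¹ * g) h] with x h1 h2 a
  have := h2 (h1 a)
  convert this using 1
  group

theorem eq_nul (g h : B.G) : ∀ᶠ x in ν, B.nul (g⁻¹ * h) x → B.nul g x → B.nul h x := by
  filter_upwards [nul_mul g (g⁻¹ * h)] with x h1 a b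
  simpa using h1 b a

theorem nl_mono {R R' : X → Prop} {q : X → ℕ → B.G} (h : Nl B R q)
    (hR : ∀ᶠ x in ν, R' x → R x) : Nl B R' q := fun U => by
  filter_upwards [h U, hR] with x h1 h2 a using h1 (h2 a)

theorem nl_sub {R : X → Prop} {q : X → ℕ → B.G} (h : Nl B R q) {i : X → ℕ → ℕ}
    (hi : ∀ᶠ x in ν, R x → Tendsto (i x) atTop atTop) : Nl B R fun x n => q x (i x n) := fun U => by
  filter_upwards [h U, hi] with x h1 h2 a using (h2 a).eventually (h1 a)

theorem nl_ev {R : X → Prop} {q q' : X → ℕ → B.G} (h : Nl B R q)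
    (he : ∀ᶠ x in ν, R x → ∀ᶠ n in atTop, q x n = q' x n) : Nl B R q' := fun U => by
  filter_upwards [h U, he] with x h1 h2 a
  filter_upwards [h1 a, h2 a] with n b c using c ▸ b

theorem nl_one (R : X → Prop) : Nl B R fun _ _ => 1 := fun U => by
  filter_upwards [B.mem_one U] with x h _ using Eventually.of_forall fun _ => h

variable [CountableInterFilter ν]

theorem nl_param {κ : Type} [Countable κ] {R : X → Prop} {q : κ → X → ℕ → B.G}
    (h : ∀ k, Nl B R (q k)) (f : X → κ) : Nl B R fun x n => q (f x) x n := fun U => by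
  filter_upwards [eventually_countable_forall.2 fun k => h k U] with x h1 using h1 (f x)

theorem nl_congr {R : X → Prop} {q q' : X → ℕ → B.G} (h : Nl B R q) (hq : Ms q) (hq' : Ms q')
    (he : ∀ᶠ x in ν, R x → ∀ᶠ n in atTop, B.nul ((q x n)⁻¹ * q' x n) x) : Nl B R q' := fun U => by
  filter_upwards [h U, he, hq.ae2 hq' (φ := fun g h x => B.nul (g⁻¹ * h) x → B.mem g U x →
    B.mem h U x) fun g h => B.mem_nul g h U] with x h1 h2 h3 a
  filter_upwards [h1 a, h2 a] with n b c using h3 n c b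

theorem nl_tri {R : X → Prop} {q q' q'' : X → ℕ → B.G} (h : Nl B R q) (h' : Nl B R q')
    (h'' : Nl B R q'') (hq : Ms q) (hq' : Ms q') (hq'' : Ms q'') :
    Nl B R fun x n => q x n * (q' x n)⁻¹ * q'' x n := fun U => by
  obtain ⟨V, hV⟩ := B.tri U
  filter_upwards [h V, h' V, h'' V, hq.ae3 hq' hq'' (φ := fun g h k x => B.mem g V x →
    B.mem h V x → B.mem k V x → B.mem (g * h⁻¹ * k) U x) hV] with x h1 h2 h3 h4 a
  filter_upwards [h1 a, h2 a, h3 a] with n b c d using h4 n b c d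

theorem nl_mul {R : X → Prop} {q q' : X → ℕ → B.G} (h : Nl B R q) (h' : Nl B R q')
    (hq : Ms q) (hq' : Ms q') : Nl B R fun x n => q x n * q' x n := by
  simpa using nl_tri h (nl_one R) h' hq (fun _ => Mx.const _) hq'

theorem nl_inv {R : X → Prop} {q : X → ℕ → B.G} (h : Nl B R q) (hq : Ms q) :
    Nl B R fun x n => (q x n)⁻¹ := by
  simpa using nl_tri (nl_one R) h (nl_one R) (fun _ => Mx.const _) hq fun _ => Mx.const _

theorem nl_conj {R : X → Prop} {q : X → ℕ → B.G} (h : Nl B R q) (hq : Ms q) (g : B.G) :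
    Nl B R fun x n => g * q x n * g⁻¹ := fun U => by
  obtain ⟨V, hV⟩ := B.conj U g
  filter_upwards [h V, hq.ae (φ := fun h x => B.mem h V x → B.mem (g * h * g⁻¹) U x) hV]
    with x h1 h2 a
  filter_upwards [h1 a] with n b using h2 n b

/-- neighbourhoods are open -/
theorem nl_opn {R : X → Prop} {q : X → ℕ → B.G} (h : Nl B R q) (hq : Ms q) (g : B.G) (U : B.O) :
    ∀ᶠ x in ν, R x → B.mem g U x → ∀ᶠ n in atTop, B.mem (g * q x n) U x := by
  obtain ⟨V, hV⟩ := B.opn U g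
  filter_upwards [h V, hq.ae (φ := fun h x => B.mem g U x → B.mem h V x → B.mem (g * h) U x) hV]
    with x h1 h2 a b
  filter_upwards [h1 a] with n c using h2 n b c

theorem nl_opn' {R : X → Prop} {q : X → ℕ → B.G} (h : Nl B R q) (hq : Ms q) (g : B.G) (U : B.O) :
    ∀ᶠ x in ν, R x → B.mem g U x → ∀ᶠ n in atTop, B.mem (q x n * g) U x := by
  have := nl_opn (nl_conj h hq g⁻¹) (fun n => ((Mx.const _).mul (hq n)).mul (Mx.const _)) g U
  simpa [mul_assoc] using this

omit [CountableInterFilter ν] in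
/-- a value taken infinitely often by a null sequence is trivial -/
theorem nl_fr {R : X → Prop} {q : X → ℕ → B.G} (h : Nl B R q) (g : B.G) :
    ∀ᶠ x in ν, R x → (∃ᶠ n in atTop, q x n = g) → B.nul g x := by
  obtain ⟨U, hU⟩ := B.haus g
  filter_upwards [h U, hU] with x h1 h2 a b
  obtain ⟨n, c, d⟩ := (b.and_eventually (h1 a)).exists
  exact h2 (c ▸ d)

omit [CountableInterFilter ν] in
theorem mix' {q : X → B.G} (hq : Mx q) : ∃ h, ∀ᶠ x in ν, B.nul ((q x)⁻¹ * h) x := by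
  obtain ⟨e, he⟩ := (hq.1.insert 1).exists_eq_range (insert_nonempty _ _)
  obtain ⟨f, hf, hf'⟩ := cls_meas.sel (fun x n => q x = e n) fun n => hq.2 _
  obtain ⟨h, hh⟩ := B.mix f e (Mx.of_cnt hf).measurable
  refine ⟨h, hh.mono fun x hx => ?_⟩
  have : q x ∈ range e := he ▸ mem_insert_of_mem _ (mem_range_self x)
  obtain ⟨n, hn⟩ := this
  rwa [hf' x ⟨n, hn.symm⟩]

/-- Cauchy property of convergent sequences -/
theorem nl_cauchy {R : X → Prop} {q : X → ℕ → B.G} {g : B.G} (h : Nl B R fun x n => g⁻¹ * q x n)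
    (hq : Ms q) (U : B.O) : ∀ᶠ x in ν, R x → ∃ k, ∀ m n, k ≤ m → k ≤ n →
      B.mem ((q x m)⁻¹ * q x n) U x ∧ B.mem (q x m * (q x n)⁻¹) U x := by
  obtain ⟨U', hU'⟩ := B.conj U g
  obtain ⟨U'', hU''⟩ := B.inter U U'
  obtain ⟨V, hV⟩ := B.tri U''
  have e : ∀ m n, ∀ᶠ x in ν, B.mem (g⁻¹ * q x m) V x → B.mem (g⁻¹ * q x n) V x →
      B.mem ((q x m)⁻¹ * q x n) U x ∧ B.mem (q x m * (q x n)⁻¹) U x := by
    intro m n
    refine (hq m).ae2 (hq n) (φ := fun a b x => B.mem (g⁻¹ * a) V x → B.mem (g⁻¹ * b) V x →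
      B.mem (a⁻¹ * b) U x ∧ B.mem (a * b⁻¹) U x) fun a b => ?_
    filter_upwards [hV 1 (g⁻¹ * a) (g⁻¹ * b), hV (g⁻¹ * a) (g⁻¹ * b) 1, B.mem_one V,
      hU'' (1 * (g⁻¹ * a)⁻¹ * (g⁻¹ * b)), hU'' (g⁻¹ * a * (g⁻¹ * b)⁻¹ * 1),
      hU' (g⁻¹ * a * (g⁻¹ * b)⁻¹ * 1)] with x h1 h2 h3 h4 h5 h6 c d
    constructor
    · convert (h4 (h1 h3 c d)).1 using 1
      group
    · convert h6 (h5 (h2 c d h3)).2 using 1
      group
  filter_upwards [h V, eventually_countable_forall.2 fun m => eventually_countable_forall.2 (e m)]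
    with x h1 h2 a
  obtain ⟨k, hk⟩ := eventually_atTop.1 (h1 a)
  exact ⟨k, fun m n hm hn => h2 m n (hk m hm) (hk n hn)⟩

theorem c0_ne (n : ℕ) : ∀ᶠ x in ν, ¬ B.nul (B.c0 n) x := by
  refine B.no2 (B.nul (B.c0 n)) (fun _ p l => (n, p, l)) (B.b0 n) (B.nul_meas _)
    (fun _ _ => measurable_const) ?_ fun p => nl_mono (B.a0_nl n p) (.of_forall fun _ _ => trivial)
  refine nl_congr (nl_mono (B.b0_nl n) (.of_forall fun _ _ => trivial)) (fun _ => Mx.const _)
    (fun _ => Mx.const _) ?_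
  filter_upwards [eventually_countable_forall.2 fun j => B.nul_conj (B.c0 n) (B.b0 n j)⁻¹]
    with x h a
  refine Eventually.of_forall fun j => ?_
  convert h j a using 1
  group

theorem c0_ne' (g : B.G) : ∀ᶠ x in ν, ∀ᶠ n in atTop, ¬ B.nul (g⁻¹ * B.c0 n) x := by
  obtain ⟨U, hU⟩ := B.haus g
  filter_upwards [hU, B.c0_nl U, eventually_countable_forall.2 (c0_ne (B := B)),
    eventually_countable_forall.2 fun n => eq_nul g (B.c0 n),
    eventually_countable_forall.2 fun n => eq_symm g (B.c0 n),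
    eventually_countable_forall.2 fun n => B.mem_nul (B.c0 n) g U] with x h1 h2 h3 h4 h5 h6
  filter_upwards [h2 trivial] with n a b
  exact h3 n (h4 n b (h1 (h6 n (h5 n b) a)))

/-- one step of the analysis of a tree -/
theorem tri_step {Q : Type} [Countable Q] [Nonempty Q] (v : Q → B.G) {z : X → ℕ → Q} (hz : Ms z)
    {g : B.G} (h : Nl B (fun _ => True) fun x n => g⁻¹ * v (z x n))
    (hf : ∀ᶠ x in ν, (range (z x)).Finite) :
    ∃ w : X → Q, Mx w ∧ ∀ᶠ x in ν, w x ∈ range (z x) ∧ B.nul (g⁻¹ * v (w x)) x := by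
  obtain ⟨w, hw, hw'⟩ := cls_meas.sel (fun x w => ∃ᶠ n in atTop, z x n = w)
    fun w => cls_meas.fr fun n => (hz n).2 w
  refine ⟨w, Mx.of_cnt hw, ?_⟩
  filter_upwards [hf, eventually_countable_forall.2 fun w => nl_fr h (g⁻¹ * v w)] with x h1 h2
  have h3 : ∃ w, ∃ᶠ n in atTop, z x n = w := by
    by_contra hcon
    push Not at hcon
    obtain ⟨n, hn⟩ := ((eventually_all_finite h1).2 fun w _ => hcon w).exists
    exact hn _ (mem_range_self n) rfl
  have h4 := hw' x h3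
  exact ⟨h4.exists, h2 _ trivial (h4.mono fun n hn => by rw [hn])⟩

/-- a set with `1` in its closure, but not in it, contains a non trivial convergent sequence -/
theorem tri_seq [ν.NeBot] {Q : Type} [Countable Q] [Nonempty Q] (v : Q → B.G) {D : X → Set Q}
    (hD : ∀ w, Measurable fun x => w ∈ D x) (h1 : ∀ U, ∀ᶠ x in ν, ∃ w ∈ D x, B.mem (v w) U x)
    (h2 : ∀ᶠ x in ν, ∀ w ∈ D x, ¬ B.nul (v w) x) :
    ∃ (z : X → ℕ → Q) (g : B.G), Ms z ∧ (Nl B (fun _ => True) fun x n => g⁻¹ * v (z x n)) ∧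
      (∀ᶠ x in ν, ∀ n, z x n ∈ D x) ∧ ∃ᶠ x in ν, (range (z x)).Infinite := by
  by_contra hcon
  have key : ∀ (z : X → ℕ → Q) (g : B.G), Ms z →
      (Nl B (fun _ => True) fun x n => g⁻¹ * v (z x n)) → (∀ᶠ x in ν, ∀ n, z x n ∈ D x) →
      ∃ w : X → Q, Mx w ∧ ∀ᶠ x in ν, w x ∈ D x ∧ B.nul (g⁻¹ * v (w x)) x := by
    intro z g hz hn hzD
    have hf : ∀ᶠ x in ν, (range (z x)).Finite := by
      by_contra h
      exact hcon ⟨z, g, hz, hn, hzD, by simpa [not_eventually] using h⟩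
    obtain ⟨w, hw, hw'⟩ := tri_step v hz hn hf
    refine ⟨w, hw, ?_⟩
    filter_upwards [hw', hzD] with x a b
    obtain ⟨n, hn⟩ := a.1
    exact ⟨hn ▸ b n, a.2⟩
  have next : ∀ (b : ℕ → B.G) (g : B.G) (w : ℕ → X → Q), (∀ n, Mx (w n)) →
      (∀ n, ∀ᶠ x in ν, w n x ∈ D x ∧ B.nul ((b n)⁻¹ * v (w n x)) x) →
      (Nl B (fun _ => True) fun _ n => g⁻¹ * b n) →
      ∃ w : X → Q, Mx w ∧ ∀ᶠ x in ν, w x ∈ D x ∧ B.nul (g⁻¹ * v (w x)) x := by
    intro b g w hw hw' hn
    refine key (fun x n => w n x) g hw (nl_congr hn (fun _ => Mx.const _)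
      (fun n => (hw n).map fun a => g⁻¹ * v a) ?_)
      ((eventually_countable_forall.2 hw').mono fun x h n => (h n).1)
    filter_upwards [eventually_countable_forall.2 hw'] with x h _
    refine Eventually.of_forall fun n => ?_
    convert (h n).2 using 1
    group
  obtain ⟨e, he⟩ := exists_surjective_nat Q
  obtain ⟨a, b, c, ha, haD, hc, hb, hn⟩ := B.o3a (fun n => v (e n)) (fun x n => e n ∈ D x)
    (fun _ => True) (fun n => hD _) measurable_const fun U => by
      filter_upwards [h1 U] with x ⟨w, h3, h4⟩ _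
      obtain ⟨n, rfl⟩ := he w
      exact ⟨n, h3, h4⟩
  choose w3 hw3 hw3' using fun i j => key (fun x k => e (a x i j k)) (b i j)
    (fun k => (Mx.of_meas (ha i j k)).map e) (hn i j) (haD.mono fun x h k => h trivial i j k)
  choose w2 hw2 hw2' using fun i => next (b i) (c i) (w3 i) (hw3 i) (hw3' i) (hb i)
  obtain ⟨w, -, hw⟩ := next c 1 w2 hw2 hw2' (by simpa using hc)
  obtain ⟨x, h3, h4⟩ := (hw.and h2).exists
  exact h4 _ h3.1 (by simpa using h3.2)

/-- failure of T1: null columns have convergent transversals -/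
def NT1 (B : BG.{u} ν) : Prop :=
  ∀ cols : ℕ → ℕ → B.G, (∀ i, Nl B (fun _ => True) fun _ n => cols i n) →
    ∀ R, Measurable R → (∃ᶠ x in ν, R x) → ∃ (R' : X → Prop) (i n : X → ℕ → ℕ) (g : B.G),
      Measurable R' ∧ (∃ᶠ x in ν, R x ∧ R' x) ∧ Ms i ∧ Ms n ∧
      (∀ᶠ x in ν, R' x → Tendsto (i x) atTop atTop) ∧
      Nl B R' fun x l => g⁻¹ * cols (i x l) (n x l)

end BG

end Pool.Agent.MP_e30343_lc.SO.N3
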