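import Pool.Agent.MP_e30343_lc.SO.RealV

/-! Section 3, pure part: hierarchical block systems (Hier, DL, INV) and the vanishing lemmas. -/

open Filter Set

namespace Pool.Agent.MP_e30343_lc.SO.R3

theorem pr_add (u : Finset ℕ) (a b : V) : pr u (a + b) = pr u a + pr u b := by
  simp [pr, Finset.sum_add_distrib]

theorem pr_zero (u : Finset ℕ) : pr u 0 = 0 := by simp [pr]

theorem pr_eq_zero {u : Finset ℕ} {t : V} (h : ∀ z ∈ u, t z = 0) : pr u t = 0 :=
  Finset.sum_eq_zero h

theorem pr_symmDiff (u u' : Finset ℕ) (t : V) : pr (symmDiff u u') t = pr u t + pr u' t := by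
  unfold pr
  rw [symmDiff_def, Finset.sup_eq_union, Finset.sum_union disjoint_sdiff_sdiff,
    ← Finset.sum_inter_add_sum_sdiff u u', ← Finset.sum_inter_add_sum_sdiff u' u,
    Finset.inter_comm u' u]
  have := CharTwo.add_self_eq_zero (∑ x ∈ u ∩ u', t x)
  linear_combination -this

theorem pr_filter_below {u : Finset ℕ} {b : ℕ} {t : V} (h : Below b t) :
    pr (u.filter (· < b)) t = pr u t := by
  unfold pr
  rw [Finset.sum_filter]
  refine Finset.sum_congr rfl fun z _ => ?_
  split_ifs with hz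
  · rfl
  · exact (h z (by omega)).symm

section Hier
variable {ι : Type*} [LinearOrder ι]

/-- no block of a node of `F` straddles `c` -/
def Cut (T : ι → ℕ → V) (F : Finset ι) (c : ℕ) : Prop :=
  ∀ b ∈ F, ∀ j, Below c (T b j) ∨ T b j ∈ W c

/-- consecutive blocks of each node are separated by cuts of the lower nodes -/
def Hier (T : ι → ℕ → V) (F : Finset ι) : Prop :=
  ∀ b ∈ F, ∃ (l0 : ℕ) (c : ℕ → ℕ), Monotone c ∧ (∀ l, l ≤ c l) ∧ ∀ l, l0 ≤ l →
    Cut T (F.filter (· < b)) (c l) ∧ (∀ i < l, Below (c l) (T b i)) ∧ T b l ∈ W (c l)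

/-- span of the blocks of nodes in `F` satisfying `p` -/
noncomputable def SpB (T : ι → ℕ → V) (F : Finset ι) (p : ℕ → V → Prop) : Submodule F2 V :=
  Submodule.span F2 {v | ∃ b ∈ F, ∃ j, v = T b j ∧ p j v}

variable {T : ι → ℕ → V}

omit [LinearOrder ι] in
theorem SpB_mono {F F' : Finset ι} {p p' : ℕ → V → Prop} (hF : F ⊆ F')
    (hp : ∀ b ∈ F, ∀ j, p j (T b j) → T b j = 0 ∨ p' j (T b j)) : SpB T F p ≤ SpB T F' p' := by
  refine Submodule.span_le.2 ?_
  rintro v ⟨b, hb, j, rfl, hj⟩
  rcases hp b hb j hj with h | h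
  · rw [h]; exact zero_mem _
  · exact Submodule.subset_span ⟨b, hF hb, j, rfl, h⟩

omit [LinearOrder ι] in
theorem exists_blk_bd (T : ι → ℕ → V) (F : Finset ι) (n : ℕ) :
    ∃ a, ∀ b ∈ F, ∀ j < n, Below a (T b j) := by
  choose k hk using exists_below
  refine ⟨F.sup fun b => (Finset.range n).sup fun j => k (T b j), fun b hb j hj =>
    (hk (T b j)).mono ?_⟩
  exact (Finset.le_sup (f := fun j => k (T b j)) (Finset.mem_range.2 hj)).trans
    (Finset.le_sup (f := fun b => (Finset.range n).sup fun j => k (T b j)) hb)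

theorem hier_mask {F : Finset ι} {T' : ι → ℕ → V} (h : Hier T F)
    (hT : ∀ b j, T' b j = T b j ∨ T' b j = 0) : Hier T' F := by
  have hB : ∀ b j c, Below c (T b j) → Below c (T' b j) := fun b j c hc => by
    rcases hT b j with e | e <;> rw [e]
    · exact hc
    · exact fun _ _ => rfl
  have hW : ∀ b j c, T b j ∈ W c → T' b j ∈ W c := fun b j c hc => by
    rcases hT b j with e | e <;> rw [e]
    · exact hc
    · exact zero_mem _
  intro b hb
  obtain ⟨l0, c, h1, h2, h3⟩ := h b hb
  refine ⟨l0, c, h1, h2, fun l hl => ⟨fun b' hb' j => ?_, fun i hi => hB _ _ _ ((h3 l hl).2.1 i hi),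
    hW _ _ _ (h3 l hl).2.2⟩⟩
  exact ((h3 l hl).1 b' hb' j).imp (hB _ _ _) (hW _ _ _)

theorem hier_insert {F : Finset ι} {m : ι} (hm : ∀ b ∈ F, b < m) (h : Hier T (insert m F)) :
    Hier T F ∧ ∃ (l0 : ℕ) (c : ℕ → ℕ), Monotone c ∧ (∀ l, l ≤ c l) ∧ ∀ l, l0 ≤ l →
      Cut T (insert m F) (c l) ∧ (∀ i < l, Below (c l) (T m i)) ∧
        ∀ i, l ≤ i → T m i ∈ W (c l) := by
  constructor
  · intro b hb
    have := h b (Finset.mem_insert_of_mem hb)
    rwa [Finset.filter_insert, if_neg (hm b hb).not_gt] at this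
  · obtain ⟨l0, c, h1, h2, h3⟩ := h m (Finset.mem_insert_self _ _)
    rw [Finset.filter_insert, if_neg (lt_irrefl m), Finset.filter_true_of_mem hm] at h3
    have hW : ∀ l, l0 ≤ l → ∀ i, l ≤ i → T m i ∈ W (c l) := fun l hl i hi =>
      W_anti (h1 hi) (h3 i (hl.trans hi)).2.2
    refine ⟨l0, c, h1, h2, fun l hl => ⟨fun b hb j => ?_, (h3 l hl).2.1, hW l hl⟩⟩
    rcases Finset.mem_insert.1 hb with rfl | hb
    · rcases lt_or_ge j l with hj | hj
      · exact Or.inl ((h3 l hl).2.1 j hj)
      · exact Or.inr (hW l hl j hj)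
    · exact (h3 l hl).1 b hb j

/-- there are arbitrarily large cuts -/
theorem hier_cuts {F : Finset ι} (h : Hier T F) (n : ℕ) : ∃ c, n ≤ c ∧ Cut T F c := by
  induction F using Finset.induction_on_max with
  | empty => exact ⟨n, le_rfl, by simp [Cut]⟩
  | insert m F hm _ =>
    obtain ⟨-, l0, c, -, h2, h3⟩ := hier_insert hm h
    exact ⟨c (max l0 n), (le_max_right _ _).trans (h2 _), (h3 _ (le_max_left _ _)).1⟩

theorem Hier.filter_lt {F : Finset ι} (h : Hier T F) (m : ι) : Hier T (F.filter (· < m)) := by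
  intro b hb
  rw [Finset.mem_filter] at hb
  have : (F.filter (· < m)).filter (· < b) = F.filter (· < b) := by
    rw [Finset.filter_filter]
    exact Finset.filter_congr fun x _ => ⟨fun hx => hx.2, fun hx => ⟨hx.trans hb.2, hx⟩⟩
  rw [this]
  exact h b hb.1

/-- least cut of `F` from `n` on (0 if there is none) -/
noncomputable def nextCut (T : ι → ℕ → V) (F : Finset ι) (n : ℕ) : ℕ := sInf {c | n ≤ c ∧ Cut T F c}

/-- least bound of the blocks `t i`, `i < l` -/
noncomputable def blkBd (t : ℕ → V) (l : ℕ) : ℕ := sInf {k | ∀ i < l, Below k (t i)}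

theorem blkBd_spec (t : ℕ → V) (l : ℕ) : ∀ i < l, Below (blkBd t l) (t i) := by
  obtain ⟨a, ha⟩ := exists_blk_bd (fun _ : Unit => t) {()} l
  exact Nat.sInf_mem (s := {k | ∀ i < l, Below k (t i)}) ⟨a, ha () (by simp)⟩

theorem blkBd_mono (t : ℕ → V) : Monotone (blkBd t) := fun _ l' h =>
  Nat.sInf_le fun i hi => blkBd_spec t l' i (hi.trans_le h)

/-- what genericity gives is enough for `Hier` -/
theorem hier_of_next {F : Finset ι} (h : ∀ b ∈ F, ∀ᶠ l in atTop,
    T b l ∈ W (nextCut T (F.filter (· < b)) (blkBd (T b) l + l))) : Hier T F := by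
  induction F using Finset.induction_on_max with
  | empty => simp [Hier]
  | insert m F hm ih =>
    have hf : ∀ b ∈ F, (insert m F).filter (· < b) = F.filter (· < b) := fun b hb => by
      rw [Finset.filter_insert, if_neg (hm b hb).not_gt]
    have hF : Hier T F := ih fun b hb => by
      have := h b (Finset.mem_insert_of_mem hb)
      rwa [hf b hb] at this
    intro b hb
    rcases Finset.mem_insert.1 hb with rfl | hb
    · have h1 := h b (Finset.mem_insert_self _ _)
      rw [Finset.filter_insert, if_neg (lt_irrefl b), Finset.filter_true_of_mem hm] at h1 ⊢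
      obtain ⟨l0, hl0⟩ := eventually_atTop.1 h1
      have hs : ∀ n, n ≤ nextCut T F n ∧ Cut T F (nextCut T F n) := fun n =>
        Nat.sInf_mem (s := {c | n ≤ c ∧ Cut T F c}) (hier_cuts hF n)
      refine ⟨l0, fun l => nextCut T F (blkBd (T b) l + l), fun l l' hl => ?_,
        fun l => (Nat.le_add_left _ _).trans (hs _).1, fun l hl => ⟨(hs _).2, fun i hi =>
          (blkBd_spec _ l i hi).mono ((Nat.le_add_right _ _).trans (hs _).1), hl0 l hl⟩⟩
      exact Nat.sInf_le ⟨(Nat.add_le_add (blkBd_mono _ hl) hl).trans (hs _).1, (hs _).2⟩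
    · rw [hf b hb]; exact hF b hb

/-- a dual of `w` from `a` on -/
def Dual (T : ι → ℕ → V) (F : Finset ι) (a : ℕ) (w : V) (u : Finset ℕ) : Prop :=
  u.card ≤ 2 ^ F.card ∧ (∀ z ∈ u, a ≤ z) ∧ pr u w = 1 ∧ ∀ b ∈ F, ∀ j, pr u (T b j) = 0

theorem filter_lt_below (w : V) (c : ℕ) : Below c (w.filter (· < c)) := fun j hj => by
  rw [Finsupp.filter_apply, if_neg (by omega)]

theorem filter_ge_mem (w : V) (c : ℕ) : w.filter (fun j => ¬ j < c) ∈ W c := fun j hj => by
  rw [Finsupp.filter_apply, if_neg (by omega)]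

theorem dl_aux {F : Finset ι} (h : Hier T F) : ∃ a0, ∀ a, a0 ≤ a → Cut T F a → ∀ w ∈ W a,
    w ∈ SpB T F (fun _ v => v ∈ W a) ∨ ∃ u, Dual T F a w u := by
  induction F using Finset.induction_on_max with
  | empty =>
    refine ⟨0, fun a _ _ w hw => ?_⟩
    by_cases h0 : w = 0
    · left; rw [h0]; exact zero_mem _
    · right
      obtain ⟨z, hz⟩ := Finsupp.ne_iff.1 h0
      refine ⟨{z}, by simp, fun z' hz' => ?_, ?_, by simp⟩
      · rw [Finset.mem_singleton.1 hz']
        by_contra hc
        exact hz (hw z (by omega))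
      · rcases F2_cases (w z) with e | e
        · exact absurd e hz
        · simp [pr, e]
  | insert m F hm ih =>
    obtain ⟨hF, l0, c, hc1, hc2, hc3⟩ := hier_insert hm h
    obtain ⟨a0, ha0⟩ := ih hF
    have hmF : m ∉ F := fun hh => lt_irrefl _ (hm m hh)
    refine ⟨max a0 (c l0), fun a ha hcut => ?_⟩
    have hcutl : ∀ l, l0 ≤ l → Cut T (insert m F) (max a (c l)) := fun l hl => by
      rcases le_total a (c l) with e | e
      · rw [max_eq_right e]; exact (hc3 l hl).1
      · rw [max_eq_left e]; exact hcut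
    -- one interval
    have loc : ∀ l, l0 ≤ l → ∀ w ∈ W (max a (c l)), Below (max a (c (l + 1))) w →
        w ∈ SpB T (insert m F) (fun _ v => v ∈ W a) ∨
          ∃ u, Dual T (insert m F) (max a (c l)) w u ∧ ∀ z ∈ u, z < max a (c (l + 1)) := by
      intro l hl w hw hwb
      set al := max a (c l) with hal
      set bl := max a (c (l + 1)) with hbl
      have hsub : SpB T F (fun _ v => v ∈ W al) ≤ SpB T (insert m F) (fun _ v => v ∈ W a) :=
        SpB_mono (Finset.subset_insert _ _) fun b _ j hj => Or.inr (W_anti (le_max_left _ _) hj)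
      have hcF : ∀ l, l0 ≤ l → Cut T F (max a (c l)) := fun l hl b hb =>
        hcutl l hl b (Finset.mem_insert_of_mem hb)
      -- localised duals for the lower nodes
      have low : ∀ w ∈ W al, Below bl w → w ∈ SpB T (insert m F) (fun _ v => v ∈ W a) ∨
          ∃ u, Dual T F al w u ∧ ∀ z ∈ u, z < bl := by
        intro w hw hwb
        rcases ha0 al ((le_max_left _ _).trans (ha.trans (le_max_left _ _))) (hcF l hl) w hw with
          h1 | ⟨u, h1, h2, h3, h4⟩
        · exact Or.inl (hsub h1)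
        · refine Or.inr ⟨u.filter (· < bl), ⟨(Finset.card_filter_le _ _).trans h1,
            fun z hz => h2 z (Finset.mem_filter.1 hz).1, by rw [pr_filter_below hwb, h3],
            fun b hb j => ?_⟩, fun z hz => (Finset.mem_filter.1 hz).2⟩
          rcases hcF (l + 1) (by omega) b hb j with e | e
          · rw [pr_filter_below e, h4 b hb j]
          · exact pr_eq_zero fun z hz => e z (Finset.mem_filter.1 hz).2
      -- a set inside the interval that kills the lower blocks and the block `T m l`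
      have fin : ∀ u : Finset ℕ, u.card ≤ 2 ^ F.card + 2 ^ F.card → (∀ z ∈ u, al ≤ z) →
          (∀ z ∈ u, z < bl) → pr u w = 1 → (∀ b ∈ F, ∀ j, pr u (T b j) = 0) →
          pr u (T m l) = 0 → ∃ u, Dual T (insert m F) al w u ∧ ∀ z ∈ u, z < bl := by
        intro u h1 h2 h3 h4 h5 h6
        refine ⟨u, ⟨by rw [Finset.card_insert_of_notMem hmF, pow_succ]; omega, h2, h4,
          fun b hb j => ?_⟩, h3⟩
        rcases Finset.mem_insert.1 hb with rfl | hb
        · rcases lt_trichotomy j l with e | rfl | e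
          · exact pr_eq_zero fun z hz =>
              (hc3 l hl).2.1 j e z ((le_max_right _ _).trans (h2 z hz))
          · exact h6
          · rcases hcut b (Finset.mem_insert_self _ _) j with e1 | e1
            · exact pr_eq_zero fun z hz => e1 z ((le_max_left _ _).trans (h2 z hz))
            · refine pr_eq_zero fun z hz => ?_
              rcases lt_max_iff.1 (h3 z hz) with e2 | e2
              · exact e1 z e2
              · exact (hc3 (l + 1) (by omega)).2.2 j e z e2
        · exact h5 b hb j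
      rcases low w hw hwb with h1 | ⟨u1, ⟨h11, h12, h13, h14⟩, h15⟩
      · exact Or.inl h1
      rcases F2_cases (pr u1 (T m l)) with e1 | e1
      · exact Or.inr (fin u1 (by omega) h12 h15 h13 h14 e1)
      have hB : T m l ∈ W al := by
        rcases hcutl l hl m (Finset.mem_insert_self _ _) l with e | e
        · rw [pr_eq_zero fun z hz => e z (h12 z hz)] at e1
          exact absurd e1 zero_ne_one
        · exact e
      have hBb : Below bl (T m l) :=
        ((hc3 (l + 1) (by omega)).2.1 l (by omega)).mono (le_max_right _ _)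
      rcases low (w + T m l) (add_mem hw hB) (fun j hj => by simp [hwb j hj, hBb j hj]) with
        h2 | ⟨u2, ⟨h21, h22, h23, h24⟩, h25⟩
      · left
        have : T m l ∈ SpB T (insert m F) (fun _ v => v ∈ W a) := Submodule.subset_span
          ⟨m, Finset.mem_insert_self _ _, l, rfl, W_anti (le_max_left _ _) hB⟩
        simpa using sub_mem h2 this
      rw [pr_add] at h23
      rcases F2_cases (pr u2 (T m l)) with e2 | e2
      · exact Or.inr (fin u2 (by omega) h22 h25 (by simpa [e2] using h23) h24 e2)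
      have e3 : pr u2 w = 0 := by simpa [e2] using h23
      have hmem : ∀ z ∈ symmDiff u1 u2, z ∈ u1 ∨ z ∈ u2 := fun z hz => by
        rcases Finset.mem_symmDiff.1 hz with e | e
        · exact Or.inl e.1
        · exact Or.inr e.1
      refine Or.inr (fin (symmDiff u1 u2) ?_ (fun z hz => (hmem z hz).elim (h12 z) (h22 z))
        (fun z hz => (hmem z hz).elim (h15 z) (h25 z)) (by rw [pr_symmDiff, h13, e3, add_zero])
        (fun b hb j => by rw [pr_symmDiff, h14 b hb, h24 b hb, add_zero])
        (by rw [pr_symmDiff, e1, e2]; rfl))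
      exact (Finset.card_le_card (t := u1 ∪ u2) fun z hz => Finset.mem_union.2 (hmem z hz)).trans
        ((Finset.card_union_le _ _).trans (Nat.add_le_add h11 h21))
    have all : ∀ l, l0 ≤ l → ∀ w ∈ W a, Below (max a (c l)) w →
        w ∈ SpB T (insert m F) (fun _ v => v ∈ W a) ∨
          ∃ u, Dual T (insert m F) a w u ∧ ∀ z ∈ u, z < max a (c l) := by
      intro l hl
      induction l, hl using Nat.le_induction with
      | base =>
        intro w hw hwb
        rw [max_eq_left ((le_max_right _ _).trans ha)] at hwb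
        left; rw [eq_zero_of_below hwb hw]; exact zero_mem _
      | succ l hl ihl =>
        intro w hw hwb
        have hle : max a (c l) ≤ max a (c (l + 1)) := max_le_max le_rfl (hc1 (Nat.le_succ l))
        have hsplit := Finsupp.filter_add_filter_not w (· < max a (c l))
        have hw1 : w.filter (· < max a (c l)) ∈ W a := fun j hj => by
          rw [Finsupp.filter_apply, hw j hj, ite_self]
        rcases ihl _ hw1 (filter_lt_below _ _) with h1 | ⟨u, ⟨h1, h2, h3, h4⟩, h5⟩
        · rcases loc l hl _ (filter_ge_mem w _) (fun j hj => by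
            rw [Finsupp.filter_apply, hwb j hj, ite_self]) with h2 | ⟨u, ⟨h2, h3, h4, h5⟩, h6⟩
          · left; rw [← hsplit]; exact add_mem h1 h2
          · refine Or.inr ⟨u, ⟨h2, fun z hz => (le_max_left _ _).trans (h3 z hz), ?_, h5⟩, h6⟩
            rw [← hsplit, pr_add, h4, pr_eq_zero fun z hz => filter_lt_below _ _ z (h3 z hz),
              zero_add]
        · refine Or.inr ⟨u, ⟨h1, h2, ?_, h4⟩, fun z hz => (h5 z hz).trans_le hle⟩
          rw [← hsplit, pr_add, h3, pr_eq_zero fun z hz => filter_ge_mem w _ z (h5 z hz), add_zero]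
    intro w hw
    obtain ⟨k, hk⟩ := exists_below w
    rcases all (max l0 k) (le_max_left _ _) w hw
      (hk.mono ((le_max_right _ _).trans ((hc2 _).trans (le_max_right _ _)))) with h1 | ⟨u, h1, -⟩
    · exact Or.inl h1
    · exact Or.inr ⟨u, h1⟩

/-- (DL) a far vector is in the span of the late blocks or has a small far dual -/
theorem dl {F : Finset ι} (h : Hier T F) (n k : ℕ) : ∃ k1, ∀ w ∈ W k1,
    w ∈ SpB T F (fun j _ => n ≤ j) ∨ ∃ u, Dual T F k w u := by
  obtain ⟨a0, ha0⟩ := dl_aux h
  obtain ⟨a1, ha1⟩ := exists_blk_bd T F n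
  obtain ⟨a, ha, hcut⟩ := hier_cuts h (max a0 (max a1 k))
  refine ⟨a, fun w hw => ?_⟩
  rcases ha0 a (by omega) hcut w hw with h1 | ⟨u, h1, h2, h3, h4⟩
  · refine Or.inl (SpB_mono subset_rfl (fun b hb j hj => ?_) h1)
    rcases lt_or_ge j n with e | e
    · exact Or.inl (eq_zero_of_below ((ha1 b hb j e).mono (by omega)) hj)
    · exact Or.inr e
  · exact Or.inr ⟨u, h1, fun z hz => by have := h2 z hz; omega, h3, h4⟩

omit [LinearOrder ι] in
/-- restriction to an interval between two cuts -/
theorem span_restrict {F : Finset ι} {a b : ℕ} (ha : Cut T F a) (hb : Cut T F b) {w : V}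
    (hw : w ∈ SpB T F (fun _ _ => True)) :
    w.filter (fun j => a ≤ j ∧ j < b) ∈ SpB T F (fun _ v => v ∈ W a ∧ Below b v) := by
  induction hw using Submodule.span_induction with
  | mem v hv =>
    obtain ⟨x, hx, j, rfl, -⟩ := hv
    rcases ha x hx j with e1 | e1
    · have : (T x j).filter (fun j => a ≤ j ∧ j < b) = 0 :=
        (Finsupp.filter_eq_zero_iff _ _).2 fun i hi => e1 i hi.1
      rw [this]; exact zero_mem _
    rcases hb x hx j with e2 | e2
    · have : (T x j).filter (fun j => a ≤ j ∧ j < b) = T x j := by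
        refine (Finsupp.filter_eq_self_iff _ _).2 fun i hi => ⟨?_, ?_⟩
        · by_contra hc; exact hi (e1 i (by omega))
        · by_contra hc; exact hi (e2 i (by omega))
      rw [this]
      exact Submodule.subset_span ⟨x, hx, j, rfl, e1, e2⟩
    · have : (T x j).filter (fun j => a ≤ j ∧ j < b) = 0 :=
        (Finsupp.filter_eq_zero_iff _ _).2 fun i hi => e2 i hi.2
      rw [this]; exact zero_mem _
  | zero => rw [Finsupp.filter_zero]; exact zero_mem _
  | add v v' _ _ h1 h2 => rw [Finsupp.filter_add]; exact add_mem h1 h2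
  | smul r v _ h1 => rw [Finsupp.filter_smul]; exact Submodule.smul_mem _ _ h1

/-- (INV) a far singleton in the span is one late non-zero block of a node `b` plus late blocks of
lower nodes -/
theorem inv_single {F : Finset ι} (h : Hier T F) (n : ℕ) : ∃ k1, ∀ z, k1 ≤ z →
    (Finsupp.single z 1 : V) ∈ SpB T F (fun _ _ => True) → ∃ b ∈ F, ∃ j, n ≤ j ∧ T b j ≠ 0 ∧
      Finsupp.single z 1 + T b j ∈ SpB T (F.filter (· < b)) (fun j _ => n ≤ j) := by
  induction F using Finset.induction_on_max with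
  | empty =>
    refine ⟨0, fun z _ hz => ?_⟩
    simp [SpB] at hz
  | insert m F hm ih =>
    obtain ⟨hF, l0, c, hc1, hc2, hc3⟩ := hier_insert hm h
    obtain ⟨k1, hk1⟩ := ih hF
    obtain ⟨a1, ha1⟩ := exists_blk_bd T F n
    refine ⟨max k1 (c (max l0 (max n a1))), fun z hz hsp => ?_⟩
    have hex : ∃ l, z < c (l + 1) := ⟨z, hc2 (z + 1)⟩
    obtain ⟨l, hl1, hl2, hl3⟩ : ∃ l, max l0 (max n a1) ≤ l ∧ c l ≤ z ∧ z < c (l + 1) := by
      have h1 := Nat.find_spec hex
      have h2 : max l0 (max n a1) ≤ Nat.find hex := by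
        by_contra hc
        have := hc1 (show Nat.find hex + 1 ≤ max l0 (max n a1) by omega)
        omega
      refine ⟨Nat.find hex, h2, ?_, h1⟩
      rcases Nat.eq_zero_or_pos (Nat.find hex) with e | e
      · have : max l0 (max n a1) = 0 := by omega
        rw [this] at hz
        rw [e]; omega
      · have := Nat.find_min hex (m := Nat.find hex - 1) (by omega)
        rw [Nat.sub_add_cancel e] at this
        omega
    have hr := span_restrict (hc3 l (by omega)).1 (hc3 (l + 1) (by omega)).1 hsp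
    rw [Finsupp.filter_single_of_pos _ ⟨hl2, hl3⟩] at hr
    have hle : SpB T (insert m F) (fun _ v => v ∈ W (c l) ∧ Below (c (l + 1)) v) ≤
        Submodule.span F2 {T m l} ⊔ SpB T F (fun j _ => n ≤ j) := by
      refine Submodule.span_le.2 ?_
      rintro v ⟨b, hb, j, rfl, h1, h2⟩
      rcases Finset.mem_insert.1 hb with rfl | hb
      · rcases lt_trichotomy j l with e | rfl | e
        · rw [eq_zero_of_below ((hc3 l (by omega)).2.1 j e) h1]; exact zero_mem _
        · exact Submodule.mem_sup_left (Submodule.mem_span_singleton_self _)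
        · rw [eq_zero_of_below h2 ((hc3 (l + 1) (by omega)).2.2 j e)]; exact zero_mem _
      · rcases lt_or_ge j n with e | e
        · rw [eq_zero_of_below ((ha1 b hb j e).mono (by have := hc2 l; omega)) h1]
          exact zero_mem _
        · exact Submodule.mem_sup_right (Submodule.subset_span ⟨b, hb, j, rfl, e⟩)
    obtain ⟨v1, hv1, v2, hv2, hsum⟩ := Submodule.mem_sup.1 (hle hr)
    obtain ⟨r, rfl⟩ := Submodule.mem_span_singleton.1 hv1
    have lowcase : (Finsupp.single z 1 : V) ∈ SpB T F (fun j _ => n ≤ j) →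
        ∃ b ∈ insert m F, ∃ j, n ≤ j ∧ T b j ≠ 0 ∧ Finsupp.single z 1 + T b j ∈
          SpB T ((insert m F).filter (· < b)) (fun j _ => n ≤ j) := by
      intro h1
      obtain ⟨b, hb, j, h2, h3, h4⟩ := hk1 z (by omega)
        (SpB_mono subset_rfl (fun _ _ _ _ => Or.inr trivial) h1)
      refine ⟨b, Finset.mem_insert_of_mem hb, j, h2, h3, ?_⟩
      rwa [Finset.filter_insert, if_neg (hm b hb).not_gt]
    by_cases h0 : T m l = 0
    · refine lowcase ?_
      rw [← hsum, h0, smul_zero, zero_add]; exact hv2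
    rcases F2_cases r with rfl | rfl
    · refine lowcase ?_
      rw [← hsum, zero_smul, zero_add]; exact hv2
    · refine ⟨m, Finset.mem_insert_self _ _, l, by omega, h0, ?_⟩
      rw [Finset.filter_insert, if_neg (lt_irrefl m), Finset.filter_true_of_mem hm, ← hsum,
        one_smul, add_right_comm, V_add_self, zero_add]
      exact hv2

end Hier

/-! ### vanishing lemmas -/

theorem eta_eq_sum (y : ℕ → Lt) {t : V} {N : ℕ} (ht : Below N t) :
    eta y t = ∑ i ∈ Finset.range N, pr ((y i).2.1.filter (i ≤ ·)) t • (y i).2.2 := by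
  have h1 : eta y t = ∑ z ∈ Finset.range N, t z • psi y z := by
    rw [eta_apply]
    refine Finset.sum_subset (fun z hz => Finset.mem_range.2 ?_) fun z _ hz => ?_
    · by_contra hc
      exact Finsupp.mem_support_iff.1 hz (ht z (by omega))
    · rw [Finsupp.notMem_support_iff.1 hz, zero_smul]
  have h2 : ∀ z ∈ Finset.range N, t z • psi y z = ∑ i ∈ Finset.range N,
      (if z ∈ (y i).2.1 ∧ i ≤ z then t z else 0) • (y i).2.2 := by
    intro z hz
    rw [Finset.mem_range] at hz
    rw [psi, Finset.smul_sum, Finset.sum_filter]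
    symm
    refine (Finset.sum_subset (s₁ := Finset.range (z + 1))
      (Finset.range_subset_range.2 (by omega)) fun i _ hi => ?_).symm.trans ?_
    · rw [Finset.mem_range] at hi
      rw [if_neg (fun hh => by omega), zero_smul]
    · refine Finset.sum_congr rfl fun i hi => ?_
      rw [Finset.mem_range] at hi
      by_cases hu : z ∈ (y i).2.1
      · rw [if_pos ⟨hu, by omega⟩, if_pos hu]
      · rw [if_neg (fun hh => hu hh.1), if_neg hu, zero_smul]
  rw [h1, Finset.sum_congr rfl h2, Finset.sum_comm]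
  refine Finset.sum_congr rfl fun i _ => ?_
  rw [← Finset.sum_smul, ← Finset.sum_filter]
  congr 1
  refine Finset.sum_subset (fun z hz => ?_) fun z hz hz' => ?_
  · exact Finset.mem_filter.2 (Finset.mem_filter.1 hz).2
  · refine ht z ?_
    by_contra hc
    exact hz' (Finset.mem_filter.2 ⟨Finset.mem_range.2 (by omega), Finset.mem_filter.1 hz⟩)

/-- almost every letter is far beyond its index and beyond all earlier letters -/
def Sep (y : ℕ → Lt) : Prop := ∀ᶠ l in atTop, ∃ k, l ≤ k ∧ Bd y l k ∧ Far k (y l).ob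

theorem Sep.far {y : ℕ → Lt} (h : Sep y) : ∀ᶠ l in atTop, Far l (y l).ob :=
  h.mono fun _ ⟨_, h1, _, h3⟩ => h3.mono h1

theorem eta_eq_zero {y : ℕ → Lt} {t : V} (h : ∀ i, pr ((y i).2.1.filter (i ≤ ·)) t = 0) :
    eta y t = 0 := by
  obtain ⟨N, hN⟩ := exists_below t
  rw [eta_eq_sum y hN]
  exact Finset.sum_eq_zero fun i _ => by rw [h i, zero_smul]

/-- (Van 3) -/
theorem van_self {y : ℕ → Lt} (h : Sep y) :
    ∀ᶠ l in atTop, pr (y l).2.1 (y l).1 = 1 → eta y (y l).1 = (y l).2.2 := by
  obtain ⟨l0, hl0⟩ := eventually_atTop.1 h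
  filter_upwards [eventually_ge_atTop l0] with l hl h1
  obtain ⟨N, hN⟩ := exists_below (y l).1
  obtain ⟨k, hk1, hk2, hk3⟩ := hl0 l hl
  rw [eta_eq_sum y (hN.mono (le_max_left N (l + 1))), Finset.sum_eq_single l]
  · rw [Finset.filter_true_of_mem (s := (y l).2.1) fun z hz => hk1.trans (hk3.2 z hz), h1,
      one_smul]
  · intro i _ hi
    rw [pr_eq_zero, zero_smul]
    intro z hz
    have hz := (Finset.mem_filter.1 hz).1
    rcases lt_or_gt_of_ne hi with e | e
    · exact hk3.1 z ((hk2 i e).2 z hz)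
    · obtain ⟨k', -, h2, h3⟩ := hl0 i (by omega)
      exact (h2 l e).1 z (h3.2 z hz)
  · intro hh
    exact absurd (Finset.mem_range.2 (by omega)) hh

/-- (Van 1), general form: `J` = committed indices of the sequence `t` -/
theorem van_orth {y : ℕ → Lt} {t : ℕ → V} {J : Set ℕ} (hy : ∀ᶠ i in atTop, Far i (y i).ob)
    (ht : ∀ᶠ l in atTop, t l ∈ W l) (h : ∀ᶠ i in atTop, ∀ l ∈ J, pr (y i).2.1 (t l) = 0) :
    ∀ᶠ l in atTop, l ∈ J → eta y (t l) = 0 := by
  obtain ⟨i0, hi0⟩ := eventually_atTop.1 (hy.and h)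
  obtain ⟨k, hk⟩ := exists_bd y i0
  filter_upwards [ht, eventually_ge_atTop k] with l hl hkl hJ
  refine eta_eq_zero fun i => ?_
  rcases lt_or_ge i i0 with e | e
  · exact pr_eq_zero fun z hz => hl z (((hk i e).2 z (Finset.mem_filter.1 hz).1).trans_le hkl)
  · rw [Finset.filter_true_of_mem (s := (y i).2.1) fun z hz => (hi0 i e).1.2 z hz]
    exact (hi0 i e).2 l hJ

theorem nu_eq_of_sep {y : ℕ → Lt} (h : Sep y) : ∃ k, ∀ z, k ≤ z → ∀ l, (y l).1 z ≠ 0 →
    nu y z = (y l).2.2 := by
  obtain ⟨l0, hl0⟩ := eventually_atTop.1 h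
  obtain ⟨k, hk⟩ := exists_bd y l0
  refine ⟨k, fun z hz l hl => ?_⟩
  have late : ∀ i, (y i).1 z ≠ 0 → l0 ≤ i := fun i hi => by
    by_contra hc
    exact hi ((hk i (by omega)).1 z hz)
  have uniq : ∀ i j, i < j → (y i).1 z ≠ 0 → (y j).1 z ≠ 0 → False := fun i j hij hi hj => by
    obtain ⟨k', -, h2, h3⟩ := hl0 j (late j hj)
    rcases lt_or_ge z k' with e | e
    · exact hj (h3.1 z e)
    · exact hi ((h2 i hij).1 z e)
  rw [nu, Finset.sum_eq_single l]
  · rcases F2_cases ((y l).1 z) with e | e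
    · exact absurd e hl
    · rw [e, one_smul]
  · intro i _ hi
    have : (y i).1 z = 0 := by
      by_contra hc
      rcases lt_or_gt_of_ne hi with e | e
      · exact uniq i l e hc hl
      · exact uniq l i e hl hc
    rw [this, zero_smul]
  · intro hh
    obtain ⟨k', h1, -, h3⟩ := hl0 l (late l hl)
    refine absurd (h3.1 z ?_) hl
    rw [Finset.mem_range] at hh
    omega

/-- (Van 1) from goodness of the later node `y` for the earlier node `y'` -/
theorem van_good {y y' : ℕ → Lt} {D : ℕ} (hy : ∀ᶠ i in atTop, Far i (y i).ob) (hy' : Sep y')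
    (h : ∀ᶠ i in atTop, Good y' D (y i).ob) :
    ∀ᶠ l in atTop, (y' l).2.2 ∉ W D → eta y (y' l).1 = 0 := by
  obtain ⟨k, hk⟩ := nu_eq_of_sep hy'
  refine van_orth (J := {l | (y' l).2.2 ∉ W D}) hy (hy'.far.mono fun l hl => hl.1) ?_
  filter_upwards [hy, h, eventually_ge_atTop k] with i h1 h2 h3 l hl
  refine pr_eq_zero fun z hz => ?_
  by_contra hc
  exact hl (hk z (h3.trans (h1.2 z hz)) l hc ▸ h2.2 z hz)

end Pool.Agent.MP_e30343_lc.SO.R3
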