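import Pool.Agent.MP_e30343_lc.SO.RealB

/-! Section 3, pointwise part: the dichotomy behind STAR and Tall. -/

open Filter Set

namespace Pool.Agent.MP_e30343_lc.SO.R3

variable {ι : Type*}

/-- the real domain at level `i` -/
def RDp (y : ι → ℕ → Lt) (P : Set V) (F : Finset ι) (i : ℕ) (o : Ob) : Prop :=
  o.1 ∈ P ∧ o.2.card ≤ 2 ^ i ∧ pr o.2 o.1 = 1 ∧
    ∀ b ∈ F, ∀ j, (y b j).2.2 ∉ W i → pr o.2 (y b j).1 = 0

def RealP (y : ι → ℕ → Lt) (P : Set V) (F : Finset ι) (i : ℕ) : Prop :=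
  ∀ k, ∃ o, RDp y P F i o ∧ Far k o

def DomP (y : ι → ℕ → Lt) (P : Set V) (F : Finset ι) (i : ℕ) (o : Ob) : Prop :=
  (RealP y P F i ∧ RDp y P F i o) ∨ (¬ RealP y P F i ∧ o = (0, ∅))

theorem DomP.card {y : ι → ℕ → Lt} {P : Set V} {F : Finset ι} {i : ℕ} {o : Ob}
    (h : DomP y P F i o) : o.2.card ≤ 2 ^ i := by
  rcases h with h | h
  · exact h.2.2.1
  · rw [h.2]; simp

theorem domP_far (y : ι → ℕ → Lt) (P : Set V) (F : Finset ι) (i k : ℕ) :
    ∃ o, DomP y P F i o ∧ Far k o := by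
  by_cases h : RealP y P F i
  · obtain ⟨o, h1, h2⟩ := h k
    exact ⟨o, Or.inl ⟨h, h1⟩, h2⟩
  · exact ⟨_, Or.inr ⟨h, rfl⟩, far_empty k⟩

theorem DomP.orth {y : ι → ℕ → Lt} {P : Set V} {F : Finset ι} {i : ℕ} {o : Ob}
    (h : DomP y P F i o) {b : ι} (hb : b ∈ F) {j : ℕ} (hj : (y b j).2.2 ∉ W i) :
    pr o.2 (y b j).1 = 0 := by
  rcases h with h | h
  · exact h.2.2.2.2 b hb j hj
  · rw [h.2]; simp [pr]

theorem DomP.self {y : ι → ℕ → Lt} {P : Set V} {F : Finset ι} {i : ℕ} {o : Ob}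
    (h : DomP y P F i o) : o.1 = 0 ∨ pr o.2 o.1 = 1 := by
  rcases h with h | h
  · exact Or.inr h.2.2.2.1
  · rw [h.2]; exact Or.inl rfl

open Classical in
/-- committed blocks -/
noncomputable def cblk (y : ι → ℕ → Lt) (i : ℕ) (b : ι) (j : ℕ) : V :=
  if (y b j).2.2 ∈ W i then 0 else (y b j).1

theorem cblk_cases (y : ι → ℕ → Lt) (i : ℕ) (b : ι) (j : ℕ) :
    cblk y i b j = 0 ∨ ((y b j).2.2 ∉ W i ∧ cblk y i b j = (y b j).1) := by
  unfold cblk
  split_ifs with h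
  · exact Or.inl rfl
  · exact Or.inr ⟨h, rfl⟩

theorem span_eta {y : ι → ℕ → Lt} {F : Finset ι} {i m : ℕ} {ya : ℕ → Lt} {S : Submodule F2 V}
    (h : ∀ b ∈ F, ∀ j, m ≤ j → (y b j).2.2 ∉ W i → eta ya (y b j).1 ∈ S) {w : V}
    (hw : w ∈ SpB (cblk y i) F (fun j _ => m ≤ j)) : eta ya w ∈ S := by
  have : SpB (cblk y i) F (fun j _ => m ≤ j) ≤ S.comap (eta ya) := by
    refine Submodule.span_le.2 ?_
    rintro v ⟨b, hb, j, rfl, hj⟩
    rcases cblk_cases y i b j with e | ⟨e1, e⟩ <;> rw [e]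
    · exact zero_mem _
    · exact h b hb j hj e1
  exact this hw

variable [LinearOrder ι]

theorem hier_cblk {y : ι → ℕ → Lt} {F : Finset ι} (h : Hier (fun b j => (y b j).1) F) (i : ℕ) :
    Hier (cblk y i) F :=
  hier_mask h fun b j => by
    rcases cblk_cases y i b j with e | e
    · exact Or.inr e
    · exact Or.inl e.2

theorem unreal_span {y : ι → ℕ → Lt} {P : Set V} {F : Finset ι} {i : ℕ} (hc : F.card ≤ i)
    (h : Hier (fun b j => (y b j).1) F) (hr : ¬ RealP y P F i) (m : ℕ) :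
    ∃ k1, ∀ w ∈ P, w ∈ W k1 → w ∈ SpB (cblk y i) F (fun j _ => m ≤ j) := by
  unfold RealP at hr
  push Not at hr
  obtain ⟨k, hk⟩ := hr
  obtain ⟨k1, h1⟩ := dl (hier_cblk h i) m k
  refine ⟨max k1 k, fun w hw hf => ?_⟩
  rcases h1 w (W_anti (le_max_left _ _) hf) with h2 | ⟨u, u1, u2, u3, u4⟩
  · exact h2
  · refine absurd ⟨W_anti (le_max_right _ _) hf, u2⟩ (hk (w, u) ⟨hw, ?_, u3, fun b hb j hj => ?_⟩)
    · exact u1.trans (Nat.pow_le_pow_right (by norm_num) hc)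
    · have := u4 b hb j
      rwa [cblk, if_neg hj] at this

/-- the selection condition for STAR -/
def StarSel (y : ι → ℕ → Lt) (P : Set V) (F : ℕ → Finset ι) (n : ι) (i : ℕ) (w : V) : Prop :=
  w ∈ P ∧ w ∈ W i ∧
    ((∀ i', RealP y P (F i') i') → ∃ l, i ≤ l ∧ w = (y n l).1 ∧ (y n l).2.2 ∉ W 1)

omit [LinearOrder ι] in
theorem starSel_ex {y : ι → ℕ → Lt} {P : Set V} {F : ℕ → Finset ι} {n : ι}
    (hP : ∀ k, ∃ w ∈ P, w ∈ W k) (hd : ∀ᶠ l in atTop, DomP y P (F l) l (y n l).ob)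
    (hf : ∀ᶠ l in atTop, Far l (y n l).ob) (he : ∃ᶠ l in atTop, (y n l).2.2 ∉ W 1) (i : ℕ) :
    ∃ w, StarSel y P F n i w := by
  by_cases hr : ∀ i', RealP y P (F i') i'
  · obtain ⟨l, h1, ⟨h2, h3⟩, h4⟩ :=
      (he.and_eventually ((hd.and hf).and (eventually_ge_atTop i))).exists
    refine ⟨(y n l).1, ?_, W_anti h4 h3.1, fun _ => ⟨l, h4, rfl, h1⟩⟩
    rcases h2 with h2 | h2
    · exact h2.2.1
    · exact absurd (hr l) h2.1
  · obtain ⟨w, h1, h2⟩ := hP i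
    exact ⟨w, h1, h2, fun h => absurd h hr⟩

/-- STAR, pointwise -/
theorem star_pt {y : ι → ℕ → Lt} {P : Set V} {F : ℕ → Finset ι} {n : ι} {ya : ℕ → Lt} {D : ℕ}
    (hc : ∀ i, (F i).card ≤ i) (hH : ∀ i, Hier (fun b j => (y b j).1) (F i))
    (hv : ∀ i b, b ∈ F i ∨ b = n → ∀ D', ∀ᶠ l in atTop,
      (y b l).2.2 ∉ W D' → eta ya (y b l).1 ∈ W D)
    {q : ℕ → V} (hq : ∀ i, StarSel y P F n i (q i)) : ∀ᶠ i in atTop, eta ya (q i) ∈ W D := by
  by_cases hr : ∀ i', RealP y P (F i') i'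
  · obtain ⟨m, hm⟩ := eventually_atTop.1 (hv 0 n (Or.inr rfl) 1)
    filter_upwards [eventually_ge_atTop m] with i hi
    obtain ⟨l, h1, h2, h3⟩ := (hq i).2.2 hr
    rw [h2]
    exact hm l (hi.trans h1) h3
  · push Not at hr
    obtain ⟨i0, hr⟩ := hr
    obtain ⟨m, hm⟩ := eventually_atTop.1
      ((eventually_all_finset (F i0)).2 fun b hb => hv i0 b (Or.inl hb) i0)
    obtain ⟨k1, h1⟩ := unreal_span (hc i0) (hH i0) hr m
    filter_upwards [eventually_ge_atTop k1] with i hi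
    exact span_eta (fun b hb j hj => hm j hj b hb) (h1 _ (hq i).1 (W_anti hi (hq i).2.1))

theorem single_mem_W {z k : ℕ} : (Finsupp.single z 1 : V) ∈ W k ↔ k ≤ z := by
  rw [mem_W]
  constructor
  · intro h
    by_contra hn
    simpa using h z (by omega)
  · intro h j hj
    exact Finsupp.single_eq_of_ne (by omega)

/-- Tall, pointwise -/
theorem tall_pt {y : ι → ℕ → Lt} {Z : Set ℕ} {F : ℕ → Finset ι} {n : ι}
    (hZ : ∃ᶠ z in atTop, z ∈ Z)
    (hc : ∀ i, (F i).card ≤ i) (hH : ∀ i, Hier (fun b j => (y b j).1) (F i))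
    (hd : ∀ᶠ l in atTop, DomP y {w | ∃ z ∈ Z, w = Finsupp.single z 1} (F l) l (y n l).ob)
    (hs : Sep (y n)) (he : ∃ᶠ l in atTop, (y n l).2.2 ∉ W 1)
    (h3 : ∀ i, ∀ b ∈ F i, ∀ᶠ l in atTop, (y b l).1 = 0 ∨ eta (y b) (y b l).1 = (y b l).2.2)
    (hv : ∀ i, ∀ b ∈ F i, ∀ b' ∈ F i, b' < b → ∀ᶠ l in atTop,
      (y b' l).2.2 ∉ W i → eta (y b) (y b' l).1 = 0) :
    ∃ b, (b = n ∨ ∃ i, b ∈ F i) ∧ ∃ j, ∃ᶠ z in atTop,
      z ∈ Z ∧ eta (y b) (Finsupp.single z 1) j ≠ 0 := by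
  by_cases hr : ∀ i', RealP y {w | ∃ z ∈ Z, w = Finsupp.single z 1} (F i') i'
  · refine ⟨n, Or.inl rfl, 0, frequently_atTop.2 fun k => ?_⟩
    obtain ⟨l, h1, ⟨⟨h2, h4⟩, h5⟩, h6⟩ := (he.and_eventually
      (((hd.and hs.far).and (van_self hs)).and (eventually_ge_atTop k))).exists
    rcases h2 with h2 | h2
    · obtain ⟨-, ⟨z, hz, e⟩, -, h7, -⟩ := h2
      have e' : (y n l).1 = Finsupp.single z 1 := e
      refine ⟨z, ?_, hz, ?_⟩
      · have : (y n l).1 ∈ W l := h4.1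
        rw [e', single_mem_W] at this
        omega
      · rw [← e', h5 h7]
        intro h0
        exact h1 fun j hj => by rw [show j = 0 by omega]; exact h0
    · exact absurd (hr l) h2.1
  · push Not at hr
    obtain ⟨i, hr⟩ := hr
    obtain ⟨m, hm⟩ := eventually_atTop.1
      (((eventually_all_finset (F i)).2 fun b hb => h3 i b hb).and
        ((eventually_all_finset (F i)).2 fun b hb => (eventually_all_finset (F i)).2
          fun b' hb' => (eventually_imp_distrib_left).2 (hv i b hb b' hb')))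
    obtain ⟨k1, h1⟩ := unreal_span (hc i) (hH i) hr m
    obtain ⟨k2, h2⟩ := inv_single (hier_cblk (hH i) i) m
    have key : ∃ᶠ z in atTop, ∃ p ∈ F i ×ˢ Finset.range i,
        z ∈ Z ∧ eta (y p.1) (Finsupp.single z 1) p.2 ≠ 0 := by
      refine (hZ.and_eventually ((eventually_ge_atTop k1).and (eventually_ge_atTop k2))).mono ?_
      rintro z ⟨hz, a1, a2⟩
      obtain ⟨b, hb, j, hj, h0, hsp⟩ := h2 z a2
        (SpB_mono le_rfl (fun _ _ _ _ => Or.inr trivial)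
          (h1 _ ⟨z, hz, rfl⟩ (single_mem_W.2 a1)))
      obtain ⟨e1, e⟩ := (cblk_cases y i b j).resolve_left h0
      have z0 : eta (y b) (Finsupp.single z 1 + cblk y i b j) ∈ (⊥ : Submodule F2 V) :=
        span_eta (fun b' hb' j' hj' hw => (hm j' hj').2 b hb b' (Finset.mem_filter.1 hb').1
          (Finset.mem_filter.1 hb').2 hw) hsp
      rw [Submodule.mem_bot, map_add, e, ((hm j hj).1 b hb).resolve_left (e ▸ h0)] at z0
      have e2 : eta (y b) (Finsupp.single z 1) = (y b j).2.2 := by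
        have := congrArg (· + (y b j).2.2) z0
        simpa [add_assoc, V_add_self] using this
      rw [mem_W] at e1
      push Not at e1
      obtain ⟨j', hj', hne⟩ := e1
      exact ⟨(b, j'), Finset.mem_product.2 ⟨hb, Finset.mem_range.2 hj'⟩, hz, by rwa [e2]⟩
    obtain ⟨p, hp, h⟩ := (frequently_exists_finset _).1 key
    exact ⟨p.1, Or.inr ⟨i, (Finset.mem_product.1 hp).1⟩, p.2, h⟩

end Pool.Agent.MP_e30343_lc.SO.R3
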