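import Mathlib

/-! Vectors and letters as triples (definitions and lemmas of helper5 used in section 3). -/

open Filter Set

namespace Pool.Agent.MP_e30343_lc.SO.R3

abbrev F2 := ZMod 2
abbrev V := ℕ →₀ F2
/-- objects `(t,u)` -/
abbrev Ob := V × Finset ℕ
/-- letters `(t,u,eps)` -/
abbrev Lt := V × Finset ℕ × V

/-- vectors vanishing below `k` -/
def W (k : ℕ) : Submodule F2 V where
  carrier := {v | ∀ j < k, v j = 0}
  add_mem' := fun ha hb j hj => by simp [ha j hj, hb j hj]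
  zero_mem' := fun _ _ => rfl
  smul_mem' := fun c v hv j hj => by simp only [Finsupp.coe_smul, Pi.smul_apply, hv j hj, smul_eq_mul, mul_zero]

theorem mem_W {k : ℕ} {v : V} : v ∈ W k ↔ ∀ j < k, v j = 0 := Iff.rfl

theorem W_anti {k k' : ℕ} (h : k ≤ k') {v : V} (hv : v ∈ W k') : v ∈ W k :=
  fun j hj => hv j (hj.trans_le h)

/-- vectors vanishing from `k` on -/
def Below (k : ℕ) (v : V) : Prop := ∀ j, k ≤ j → v j = 0

theorem Below.mono {k k' : ℕ} (h : k ≤ k') {v : V} (hv : Below k v) : Below k' v :=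
  fun j hj => hv j (h.trans hj)

theorem eq_zero_of_below {k : ℕ} {v : V} (h1 : Below k v) (h2 : v ∈ W k) : v = 0 := by
  ext j
  rcases lt_or_ge j k with h | h
  · exact h2 j h
  · exact h1 j h

theorem exists_below (v : V) : ∃ k, Below k v := by
  refine ⟨v.support.sup id + 1, fun j hj => ?_⟩
  by_contra h
  have : j ≤ v.support.sup id := Finset.le_sup (f := id) (Finsupp.mem_support_iff.2 h)
  omega

theorem V_add_self (v : V) : v + v = 0 := by
  ext j; simp only [Finsupp.coe_add, Pi.add_apply, CharTwo.add_self_eq_zero, Finsupp.coe_zero, Pi.zero_apply]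

theorem F2_cases (a : F2) : a = 0 ∨ a = 1 := by
  revert a; decide

/-- the object of a letter -/
def Lt.ob (e : Lt) : Ob := (e.1, e.2.1)

noncomputable def psi (y : ℕ → Lt) (z : ℕ) : V :=
  ∑ i ∈ (Finset.range (z + 1)).filter (fun i => z ∈ (y i).2.1), (y i).2.2

noncomputable def nu (y : ℕ → Lt) (z : ℕ) : V :=
  ∑ i ∈ Finset.range (z + 1), (y i).1 z • (y i).2.2

noncomputable def eta (y : ℕ → Lt) : V →ₗ[F2] V := Finsupp.linearCombination F2 (psi y)

def Good (y : ℕ → Lt) (D : ℕ) (o : Ob) : Prop := eta y o.1 ∈ W D ∧ ∀ z ∈ o.2, nu y z ∈ W D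

def Far (k : ℕ) (o : Ob) : Prop := o.1 ∈ W k ∧ ∀ z ∈ o.2, k ≤ z

/-- the pairing `<u,t>` -/
def pr (u : Finset ℕ) (t : V) : F2 := ∑ z ∈ u, t z

theorem Good.mono {y : ℕ → Lt} {D D' : ℕ} (h : D ≤ D') {o : Ob} (ho : Good y D' o) :
    Good y D o := ⟨W_anti h ho.1, fun z hz => W_anti h (ho.2 z hz)⟩

theorem Far.mono {k k' : ℕ} (h : k ≤ k') {o : Ob} (ho : Far k' o) : Far k o :=
  ⟨W_anti h ho.1, fun z hz => h.trans (ho.2 z hz)⟩

theorem far_empty (k : ℕ) : Far k ((0, ∅) : Ob) := ⟨by simp, by simp⟩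

theorem good_zero_seq (D : ℕ) (o : Ob) : Good (fun _ => ((0, ∅, 0) : Lt)) D o := by
  have h : psi (fun _ => ((0, ∅, 0) : Lt)) = fun _ => 0 := by funext z; simp [psi]
  refine ⟨?_, fun z _ => by simp [nu]⟩
  simp [eta, h, Finsupp.linearCombination_apply, Finsupp.sum]

/-- change the third entries level by level -/
def tws (f : ℕ → V → V) (y : ℕ → Lt) : ℕ → Lt := fun i => ((y i).1, (y i).2.1, f i (y i).2.2)

/-- levels from `n` on -/
noncomputable def hi (n : ℕ) (y : ℕ → Lt) : ℕ → Lt := tws (fun i v => if i < n then 0 else v) y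

theorem eta_apply (y : ℕ → Lt) (t : V) : eta y t = ∑ z ∈ t.support, t z • psi y z := by
  simp only [eta, Finsupp.linearCombination_apply, Finsupp.sum]

/-- `k` bounds the first two entries of the letters below `n` -/
def Bd (y : ℕ → Lt) (n k : ℕ) : Prop := ∀ i < n, Below k (y i).1 ∧ ∀ z ∈ (y i).2.1, z < k

theorem Bd.mono {y : ℕ → Lt} {n k k' : ℕ} (h : Bd y n k) (hk : k ≤ k') : Bd y n k' :=
  fun i hi => ⟨(h i hi).1.mono hk, fun z hz => ((h i hi).2 z hz).trans_le hk⟩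

theorem exists_bd (y : ℕ → Lt) (n : ℕ) : ∃ k, Bd y n k := by
  induction n with
  | zero => exact ⟨0, fun i hi => absurd hi (Nat.not_lt_zero _)⟩
  | succ n ih =>
    obtain ⟨k, hk⟩ := ih
    obtain ⟨k1, hk1⟩ := exists_below (y n).1
    refine ⟨max k (max k1 ((y n).2.1.sup id + 1)), fun i hi => ?_⟩
    rcases Nat.lt_succ_iff_lt_or_eq.1 hi with h | rfl
    · exact (hk.mono (le_max_left _ _)) i h
    · refine ⟨hk1.mono (by omega), fun z hz => ?_⟩
      have : z ≤ (y i).2.1.sup id := Finset.le_sup (f := id) hz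
      omega

/-- `GG` is an up-set of subsets of `Γ` and any `L` members have a common point -/
structure Lk {Γ : Type*} (L : ℕ) (GG : Set (Set Γ)) : Prop where
  up : ∀ A ∈ GG, ∀ B, A ⊆ B → B ∈ GG
  lk : ∀ f : Fin L → Set Γ, (∀ i, f i ∈ GG) → ∃ g, ∀ i, g ∈ f i

theorem Lk.mono {Γ : Type*} [Nonempty Γ] {L L' : ℕ} {GG : Set (Set Γ)} (h : Lk L GG)
    (hL : L' ≤ L) : Lk L' GG := by
  refine ⟨h.up, fun f hf => ?_⟩
  rcases Nat.eq_zero_or_pos L' with rfl | h0
  · exact ⟨Classical.arbitrary _, fun i => i.elim0⟩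
  obtain ⟨g, hg⟩ := h.lk (fun i => if hi : (i : ℕ) < L' then f ⟨i, hi⟩ else f ⟨0, h0⟩) fun i => by
    split_ifs <;> exact hf _
  refine ⟨g, fun i => ?_⟩
  simpa using hg ⟨i, by omega⟩

end Pool.Agent.MP_e30343_lc.SO.R3
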